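import Pool.Agent.Helper228.OP.Defs

open MeasureTheory Filter Topology

namespace Pool.Agent.Helper228.OP
open Pool.Agent.Helper228.MM


theorem del_apply (p : Polynomial ℂ) : ∃ h : emb p ∈ del.domain, del ⟨emb p, h⟩ = dq p := by
  have h : emb p ∈ del.domain := ⟨p, rfl⟩
  refine ⟨h, ?_⟩
  have h1 : (LinearEquiv.ofInjective emb emb_injective).symm
      (⟨emb p, h⟩ : LinearMap.range emb) = p :=
    (LinearEquiv.symm_apply_eq _).2 (Subtype.ext rfl)
  show dq ((LinearEquiv.ofInjective emb emb_injective).symm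
      (⟨emb p, h⟩ : LinearMap.range emb)) = dq p
  rw [h1]

end Pool.Agent.Helper228.OP
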