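import Pool.Agent.Helper228.OP.Defs

open MeasureTheory Filter Topology

namespace Pool.Agent.Helper228.OP
open Pool.Agent.Helper228.MM


theorem emb_dense : Dense ((LinearMap.range emb : Submodule ℂ HH) : Set HH) := by
  have hd : DenseRange (BoundedContinuousFunction.toLp (E := ℂ) 2 rho ℂ) :=
    BoundedContinuousFunction.toLp_denseRange ℂ rho ℂ (by norm_num)
  have hcl : ∀ g : BoundedContinuousFunction ℝ ℂ,
      BoundedContinuousFunction.toLp (E := ℂ) 2 rho ℂ g ∈
        closure ((LinearMap.range emb : Submodule ℂ HH) : Set HH) := by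
    intro g
    rw [Metric.mem_closure_iff]
    intro ε hε
    obtain ⟨M, hM⟩ : ∃ M : ℝ, M = (measureUnivNNReal rho : ℝ) ^ (2 : ENNReal).toReal⁻¹ :=
      ⟨_, rfl⟩
    have hM0 : 0 ≤ M := by
      rw [hM]
      positivity
    obtain ⟨δ, hδ⟩ : ∃ δ : ℝ, δ = ε / (4 * (M + 1)) := ⟨_, rfl⟩
    have hδ0 : 0 < δ := by
      rw [hδ]
      positivity
    obtain ⟨P, hP⟩ := exists_polynomial_near_of_continuousOn (-2) 2 (fun x => (g x).re)
      (by fun_prop) δ hδ0
    obtain ⟨Q, hQ⟩ := exists_polynomial_near_of_continuousOn (-2) 2 (fun x => (g x).im)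
      (by fun_prop) δ hδ0
    obtain ⟨p, hp⟩ : ∃ p : Polynomial ℂ, p = P.map (algebraMap ℝ ℂ) +
      Polynomial.C Complex.I * Q.map (algebraMap ℝ ℂ) := ⟨_, rfl⟩
    have hpe : ∀ x : ℝ, p.eval (x : ℂ) = ((P.eval x : ℝ) : ℂ) + Complex.I * ((Q.eval x : ℝ) : ℂ) := by
      intro x
      rw [hp]
      simp only [Polynomial.eval_add, Polynomial.eval_mul, Polynomial.eval_C]
      have h1 : ∀ R : Polynomial ℝ, (R.map (algebraMap ℝ ℂ)).eval (x : ℂ) = ((R.eval x : ℝ) : ℂ) := by
        intro R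
        rw [Polynomial.eval_map]
        exact Polynomial.eval₂_at_apply (algebraMap ℝ ℂ) x
      rw [h1, h1]
    refine ⟨emb p, ⟨p, rfl⟩, ?_⟩
    rw [dist_eq_norm]
    have hb : ∀ᵐ x ∂rho, ‖((BoundedContinuousFunction.toLp (E := ℂ) 2 rho ℂ g - emb p : HH)) x‖ ≤
        2 * δ := by
      have h1 := BoundedContinuousFunction.coeFn_toLp (p := 2) rho (𝕜 := ℂ) g
      have h2 : (emb p : ℝ → ℂ) =ᵐ[rho] fun x : ℝ => p.eval (x : ℂ) :=
        MemLp.coeFn_toLp (memLp_cont (g := fun x : ℝ => p.eval (x : ℂ)) (by fun_prop))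
      have h3 := Lp.coeFn_sub (BoundedContinuousFunction.toLp (E := ℂ) 2 rho ℂ g) (emb p)
      filter_upwards [h1, h2, h3, rho_ae] with x a1 a2 a3 a4
      rw [a3, Pi.sub_apply, a1, a2, hpe]
      have e1 := hP x a4
      have e2 := hQ x a4
      refine (Complex.norm_le_abs_re_add_abs_im _).trans ?_
      have r1 : (g x - (((P.eval x : ℝ) : ℂ) + Complex.I * ((Q.eval x : ℝ) : ℂ))).re =
          (g x).re - P.eval x := by simp
      have r2 : (g x - (((P.eval x : ℝ) : ℂ) + Complex.I * ((Q.eval x : ℝ) : ℂ))).im =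
          (g x).im - Q.eval x := by simp
      rw [r1, r2, abs_sub_comm, abs_sub_comm (g x).im]
      linarith
    have hle := Lp.norm_le_of_ae_bound (by positivity) hb
    rw [← hM] at hle
    refine lt_of_le_of_lt hle ?_
    have h4 : M * (2 * δ) = ε * (M / (M + 1)) / 2 := by
      rw [hδ]
      field_simp
      ring
    rw [h4]
    have h5 : M / (M + 1) ≤ 1 := by
      rw [div_le_one (by positivity)]
      linarith
    nlinarith
  intro x
  have h1 : closure (Set.range (BoundedContinuousFunction.toLp (E := ℂ) 2 rho ℂ)) ⊆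
      closure ((LinearMap.range emb : Submodule ℂ HH) : Set HH) :=
    closure_minimal (by rintro _ ⟨g, rfl⟩; exact hcl g) isClosed_closure
  exact h1 (hd x)

end Pool.Agent.Helper228.OP
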