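import Mathlib
import Pool.Agent.Helper228.MM.Defs

open MeasureTheory Filter Topology

namespace Pool.Agent.Helper228.OP

open Pool.Agent.Helper228.MM

theorem rhoD_nonneg (x : ℝ) : 0 ≤ rhoD x := by
  unfold rhoD; positivity

theorem rhoD_cont : Continuous rhoD := by
  unfold rhoD; fun_prop

theorem rhoD_zero (x : ℝ) (hx : x ∉ Set.Icc (-2 : ℝ) 2) : rhoD x = 0 := by
  unfold rhoD
  have h : 4 - x ^ 2 ≤ 0 := by
    rw [Set.mem_Icc, not_and_or, not_le, not_le] at hx
    rcases hx with h | h <;> nlinarith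
  rw [Real.sqrt_eq_zero_of_nonpos h]; simp

theorem rho_ac : rho ≪ volume := withDensity_absolutelyContinuous _ _

instance : SFinite rho := by unfold rho; infer_instance

instance rho_noAtoms : NullSingletonClass rho := ⟨fun x => rho_ac (by simp)⟩

theorem rho_ae : ∀ᵐ x ∂rho, x ∈ Set.Icc (-2 : ℝ) 2 := by
  rw [ae_iff]
  unfold rho
  rw [withDensity_apply _ (by measurability)]
  rw [lintegral_eq_zero_iff (by exact (rhoD_cont.measurable.ennreal_ofReal))]
  refine (ae_restrict_iff' (by measurability)).2 (Eventually.of_forall fun x hx => ?_)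
  simp only [Set.mem_ofPred_eq] at hx
  simp [rhoD_zero x hx]

instance rho_fin : IsFiniteMeasure rho := by
  have h : rho (Set.Icc (-2 : ℝ) 2) < ⊤ := by
    unfold rho
    rw [withDensity_apply _ measurableSet_Icc]
    have hi : IntegrableOn rhoD (Set.Icc (-2 : ℝ) 2) :=
      (rhoD_cont.continuousOn).integrableOn_compact isCompact_Icc
    exact hi.lintegral_lt_top
  refine ⟨?_⟩
  have h2 : rho Set.univ ≤ rho (Set.Icc (-2 : ℝ) 2) + rho (Set.Icc (-2 : ℝ) 2)ᶜ := by
    rw [← Set.union_compl_self (Set.Icc (-2 : ℝ) 2)]; exact measure_union_le _ _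
  have h3 : rho (Set.Icc (-2 : ℝ) 2)ᶜ = 0 := by
    have := rho_ae; rw [ae_iff] at this; exact this
  rw [h3, add_zero] at h2
  exact lt_of_le_of_lt h2 h

theorem rho_pos : rho Set.univ ≠ 0 := by
  intro h
  have h1 : rho (Set.Ioo (1/2 : ℝ) 1) = 0 := measure_mono_null (Set.subset_univ _) h
  unfold rho at h1
  rw [withDensity_apply _ measurableSet_Ioo,
    lintegral_eq_zero_iff (rhoD_cont.measurable.ennreal_ofReal)] at h1
  have h2 := (ae_restrict_iff' measurableSet_Ioo).1 h1
  have h3 : volume (Set.Ioo (1/2 : ℝ) 1) = 0 := by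
    refine measure_mono_null ?_ (ae_iff.1 h2)
    intro x hx
    simp only [Set.mem_ofPred_eq, not_forall]
    refine ⟨hx, ?_⟩
    simp only [Pi.zero_apply, ENNReal.ofReal_eq_zero, not_le]
    unfold rhoD
    have hs : 0 < Real.sqrt (4 - x ^ 2) := Real.sqrt_pos.2 (by nlinarith [hx.1, hx.2])
    have hx0 : 0 < x := by linarith [hx.1]
    positivity
  rw [Real.volume_Ioo] at h3
  norm_num at h3

theorem ae_prod_Icc : ∀ᵐ z ∂(rho.prod rho), z.1 ∈ Set.Icc (-2 : ℝ) 2 ∧ z.2 ∈ Set.Icc (-2 : ℝ) 2 := by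
  have h1 : ∀ᵐ z ∂(rho.prod rho), z.1 ∈ Set.Icc (-2 : ℝ) 2 :=
    Measure.quasiMeasurePreserving_fst.ae rho_ae
  have h2 : ∀ᵐ z ∂(rho.prod rho), z.2 ∈ Set.Icc (-2 : ℝ) 2 :=
    Measure.quasiMeasurePreserving_snd.ae rho_ae
  filter_upwards [h1, h2] with z a b using ⟨a, b⟩

theorem memLp_cont {g : ℝ → ℂ} (hg : Continuous g) : MemLp g 2 rho := by
  obtain ⟨C, hC⟩ := (isCompact_Icc (a := (-2 : ℝ)) (b := 2)).exists_bound_of_continuousOn
    hg.continuousOn
  refine MemLp.of_bound hg.aestronglyMeasurable C ?_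
  filter_upwards [rho_ae] with x hx using hC x hx

theorem memLp_cont2 {g : ℝ × ℝ → ℂ} (hg : Continuous g) : MemLp g 2 (rho.prod rho) := by
  obtain ⟨C, hC⟩ := ((isCompact_Icc (a := (-2 : ℝ)) (b := 2)).prod
    (isCompact_Icc (a := (-2 : ℝ)) (b := 2))).exists_bound_of_continuousOn hg.continuousOn
  refine MemLp.of_bound hg.aestronglyMeasurable C ?_
  filter_upwards [ae_prod_Icc] with z hz using hC z (Set.mk_mem_prod hz.1 hz.2)

/-- `L²(M,τ) = L²(ρ)`. -/
noncomputable abbrev HH := Lp ℂ 2 rho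

/-- `L²(M,τ) ⊗ L²(M,τ) = L²(ρ ⊗ ρ)`. -/
noncomputable abbrev KK := Lp ℂ 2 (rho.prod rho)

/-- The polynomial `p(a)` as an element of `L²(ρ)`: the function `x ↦ p(x)`. -/
noncomputable def emb : Polynomial ℂ →ₗ[ℂ] HH where
  toFun p := (memLp_cont (g := fun x : ℝ => p.eval (x : ℂ)) (by fun_prop)).toLp _
  map_add' p q := by
    rw [← MemLp.toLp_add]; congr 1; ext x; simp
  map_smul' c p := by
    simp only [RingHom.id_apply]
    rw [← MemLp.toLp_const_smul]; congr 1; ext x; simp

/-- The free difference quotient on polynomials: the linear map with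
`X^k ↦ ∑_{l<k} X^l ⊗ X^{k-1-l}`, as a function of `(x, y)`. -/
noncomputable def dqFun (p : Polynomial ℂ) (z : ℝ × ℝ) : ℂ :=
  p.sum fun k a => a * ∑ l ∈ Finset.range k, (z.1 : ℂ) ^ l * (z.2 : ℂ) ^ (k - 1 - l)

theorem dqFun_cont (p : Polynomial ℂ) : Continuous (dqFun p) := by
  unfold dqFun Polynomial.sum; fun_prop

/-- The free difference quotient, with values in `L²(ρ ⊗ ρ)`. -/
noncomputable def dq : Polynomial ℂ →ₗ[ℂ] KK where
  toFun p := (memLp_cont2 (dqFun_cont p)).toLp _
  map_add' p q := by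
    rw [← MemLp.toLp_add]; congr 1; ext z
    simp only [dqFun, Pi.add_apply]
    exact Polynomial.sum_add_index p q _ (by simp) (fun k a b => by ring)
  map_smul' c p := by
    simp only [RingHom.id_apply]
    rw [← MemLp.toLp_const_smul]; congr 1; ext z
    simp only [dqFun, Pi.smul_apply, smul_eq_mul]
    rw [Polynomial.sum_smul_index p c _ (by simp), Polynomial.sum_def, Polynomial.sum_def,
      Finset.mul_sum]
    exact Finset.sum_congr rfl fun k _ => by ring

/-- No polynomial relation. -/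
theorem emb_injective : Function.Injective emb := by
  rw [injective_iff_map_eq_zero]
  intro p hp
  by_contra hne
  have h1 : (fun x : ℝ => p.eval (x : ℂ)) =ᵐ[rho] 0 := by
    have := (MemLp.toLp_eq_toLp_iff (memLp_cont (g := fun x : ℝ => p.eval (x : ℂ)) (by fun_prop))
      (MemLp.zero (p := 2) (μ := rho) (ε := ℂ))).1 (by rw [MemLp.toLp_zero]; exact hp)
    exact this
  have h2 : ∀ᵐ x ∂rho, p.eval ((x : ℝ) : ℂ) ≠ 0 := by
    rw [ae_iff]
    have hfin : {x : ℝ | ¬ p.eval ((x : ℝ) : ℂ) ≠ 0}.Finite := by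
      have := (p.rootSet_finite ℂ)
      refine Set.Finite.of_finite_image (f := fun x : ℝ => (x : ℂ)) (this.subset ?_)
        (fun a _ b _ h => Complex.ofReal_injective h)
      rintro _ ⟨x, hx, rfl⟩
      simp only [ne_eq, not_not, Set.mem_ofPred_eq] at hx
      rw [Polynomial.mem_rootSet]
      exact ⟨hne, by simpa using hx⟩
    exact hfin.measure_zero _
  have h3 : ∀ᵐ x ∂rho, False := by
    filter_upwards [h1, h2] with x a b using b a
  rw [ae_iff] at h3
  simp only [not_false_eq_true, Set.ofPred_true] at h3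
  exact rho_pos h3

/-- The free difference quotient as an unbounded operator `L²(ρ) → L²(ρ ⊗ ρ)` whose domain is
the space of polynomials. -/
noncomputable def del : HH →ₗ.[ℂ] KK where
  domain := LinearMap.range emb
  toFun := dq ∘ₗ (LinearEquiv.ofInjective emb emb_injective).symm.toLinearMap

/-- `u` lies in the domain of `T* T̄` and `T* T̄ u = w` (`T̄` closure, `T*` adjoint). -/
def IsLap {E F : Type*} [NormedAddCommGroup E] [InnerProductSpace ℂ E] [CompleteSpace E]
    [NormedAddCommGroup F] [InnerProductSpace ℂ F] (T : E →ₗ.[ℂ] F) (u w : E) : Prop :=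
  ∃ (hu : u ∈ T.closure.domain) (hk : T.closure ⟨u, hu⟩ ∈ T.adjoint.domain),
    T.adjoint ⟨T.closure ⟨u, hu⟩, hk⟩ = w

/-- `R = (1 + T* T̄)⁻¹`, an everywhere defined positive contraction. -/
structure IsResolvent {E F : Type*} [NormedAddCommGroup E] [InnerProductSpace ℂ E]
    [CompleteSpace E] [NormedAddCommGroup F] [InnerProductSpace ℂ F] (T : E →ₗ.[ℂ] F)
    (R : E →L[ℂ] E) : Prop where
  pos : R.IsPositive
  right : ∀ v, IsLap T (R v) (v - R v)
  left : ∀ u w, IsLap T u w → R (u + w) = u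

/-- The function of `t = 1/(1+λ)` which equals `e^{-sλ}` (and its limit `0` at `t = 0`). -/
noncomputable def heatFun (s t : ℝ) : ℝ := if 0 < t then Real.exp (-s * (1 / t - 1)) else 0

/-- `e^{-sΔ}` for `Δ = R⁻¹ - 1`, by the continuous functional calculus of `R = (1+Δ)⁻¹`. -/
noncomputable def heat {E : Type*} [NormedAddCommGroup E] [InnerProductSpace ℂ E]
    [CompleteSpace E] (R : E →L[ℂ] E) (s : ℝ) : E →L[ℂ] E := cfc (heatFun s) R

end Pool.Agent.Helper228.OP
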