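import Mathlib

/-!
The Hilbert spaces `L²(M,τ)` and `L²(M,τ) ⊗ L²(M,τ)` of a state `τ` on the polynomials in one
self-adjoint variable, the free difference quotient, its Laplacian and heat semigroup.
-/

open MeasureTheory Filter Topology

namespace Pool.Agent.Helper228.FH

/-- `p*` for a polynomial `p` in one self-adjoint variable. -/
noncomputable def pstar (p : Polynomial ℂ) : Polynomial ℂ := p.map (starRingEnd ℂ)

section abstract

variable {E F : Type} [NormedAddCommGroup E] [InnerProductSpace ℂ E] [CompleteSpace E]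
  [NormedAddCommGroup F] [InnerProductSpace ℂ F]

/-- The Hilbert space `E` is `L²(M,τ)`: `emb p` is the element `p(a)`, `⟨p, q⟩ = τ(p* q)`, and the
polynomials are dense. -/
structure IsL2 (τ : Polynomial ℂ → ℂ) (emb : Polynomial ℂ →ₗ[ℂ] E) : Prop where
  inner_emb : ∀ p q, inner ℂ (emb p) (emb q) = τ (pstar p * q)
  dense_emb : DenseRange emb

/-- The Hilbert space `F` is `L²(M,τ) ⊗ L²(M,τ)`: `ten p q` is `p(a) ⊗ q(a)`. -/
structure IsL2Tensor (τ : Polynomial ℂ → ℂ)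
    (ten : Polynomial ℂ →ₗ[ℂ] Polynomial ℂ →ₗ[ℂ] F) : Prop where
  inner_ten : ∀ p q p' q', inner ℂ (ten p q) (ten p' q') = τ (pstar p * p') * τ (pstar q * q')
  dense_ten : Dense (Submodule.span ℂ {k | ∃ p q, ten p q = k} : Set F)

/-- `del` is the free difference quotient: the unbounded operator with domain the polynomials and
`a^k ↦ ∑_{l<k} a^l ⊗ a^{k-1-l}`. -/
structure IsDiffQuot (emb : Polynomial ℂ →ₗ[ℂ] E)
    (ten : Polynomial ℂ →ₗ[ℂ] Polynomial ℂ →ₗ[ℂ] F) (del : E →ₗ.[ℂ] F) : Prop where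
  domain : ∀ u, u ∈ del.domain ↔ ∃ p, emb p = u
  monomial : ∀ k, (emb (Polynomial.X ^ k),
    ∑ l ∈ Finset.range k, ten (Polynomial.X ^ l) (Polynomial.X ^ (k - 1 - l))) ∈ del.graph

/-- `u` lies in the domain of `T* T̄` and `T* T̄ u = w` (`T̄` = closure, `T*` = adjoint):
for some `k`, `T̄ u = k` and `T* k = w`. -/
def Lap (T : E →ₗ.[ℂ] F) (u w : E) : Prop :=
  ∃ k : F, (u, k) ∈ T.closure.graph ∧ (k, w) ∈ T.adjoint.graph

/-- `R = (1 + T* T̄)⁻¹`: a positive bounded operator, two-sided inverse of `1 + T* T̄`. -/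
structure Resolvent (T : E →ₗ.[ℂ] F) (R : E →L[ℂ] E) : Prop where
  pos : R.IsPositive
  right : ∀ v, Lap T (R v) (v - R v)
  left : ∀ u w, Lap T u w → R (u + w) = u

/-- The function of `t = 1/(1+λ)` which equals `e^{-sλ}` (and its limit `0` at `t = 0`). -/
noncomputable def heatFun (s t : ℝ) : ℝ := if 0 < t then Real.exp (-s * (1 / t - 1)) else 0

/-- `e^{-sΔ}`, `Δ = R⁻¹ - 1`, by the continuous functional calculus of `R = (1+Δ)⁻¹`. -/
noncomputable def heat (R : E →L[ℂ] E) (s : ℝ) : E →L[ℂ] E := cfc (heatFun s) R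

/-- `S s`, `s > 0`, is the strongly continuous semigroup generated by `-T* T̄`. -/
structure HeatSemigroup (T : E →ₗ.[ℂ] F) (S : ℝ → E →L[ℂ] E) : Prop where
  mul : ∀ s t : ℝ, 0 < s → 0 < t → ∀ v, S (s + t) v = S s (S t v)
  cont : ∀ v, Tendsto (fun s : ℝ => S s v) (𝓝[>] 0) (𝓝 v)
  deriv : ∀ s : ℝ, 0 < s → ∀ u w, Lap T u w →
    Tendsto (fun r : ℝ => ((r - s)⁻¹ : ℂ) • (S r u - S s u)) (𝓝[≠] s) (𝓝 (-(S s w)))

end abstract

end Pool.Agent.Helper228.FH
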