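import Pool.Agent.Helper228.OP.Defs

open MeasureTheory Filter Topology

namespace Pool.Agent.Helper228.OP
open Pool.Agent.Helper228.MM


theorem abs_resolvent_exists {E F : Type*} [NormedAddCommGroup E] [InnerProductSpace ℂ E]
    [CompleteSpace E] [NormedAddCommGroup F] [InnerProductSpace ℂ F] [CompleteSpace F]
    (T : E →ₗ.[ℂ] F) (hT : T.IsClosed) :
    ∃ R : E →L[ℂ] E, ∀ v : E, ∃ hu : R v ∈ T.domain, ∀ x : T.domain,
      inner ℂ (x : E) (R v) + inner ℂ (T x) (T ⟨R v, hu⟩) = inner ℂ (x : E) v := by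
  set Φ := WithLp.prodContinuousLinearEquiv 2 ℂ E F with hΦ
  set Gs : Submodule ℂ (WithLp 2 (E × F)) := T.graph.comap Φ.toLinearEquiv.toLinearMap with hGs
  have hcl : IsClosed (Gs : Set (WithLp 2 (E × F))) := by
    have h1 : IsClosed (T.graph : Set (E × F)) := hT
    exact h1.preimage Φ.continuous
  have : CompleteSpace Gs := hcl.completeSpace_coe
  set P := Gs.starProjection with hP
  set R : E →L[ℂ] E := (ContinuousLinearMap.fst ℂ E F) ∘L (Φ : WithLp 2 (E × F) →L[ℂ] E × F) ∘L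
    P ∘L (Φ.symm : E × F →L[ℂ] WithLp 2 (E × F)) ∘L (ContinuousLinearMap.inl ℂ E F) with hR
  refine ⟨R, fun v => ?_⟩
  set g := P (Φ.symm (v, 0)) with hg
  have hgG : Φ g ∈ T.graph := Gs.starProjection_apply_mem _
  have hRv : R v = (Φ g).1 := rfl
  obtain ⟨y, hy1, hy2⟩ := (LinearPMap.mem_graph_iff T).1 hgG
  have hu : R v ∈ T.domain := by rw [hRv, ← hy1]; exact y.2
  have hy : (⟨R v, hu⟩ : T.domain) = y := by
    apply Subtype.ext
    exact hRv.trans hy1.symm
  refine ⟨hu, fun x => ?_⟩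
  rw [hy, hy2, hRv]
  set gx : WithLp 2 (E × F) := Φ.symm ((x : E), T x) with hgx
  have hgxG : gx ∈ Gs := by
    show Φ (Φ.symm ((x : E), T x)) ∈ T.graph
    rw [Φ.apply_symm_apply]
    exact T.mem_graph x
  have h1 : inner ℂ gx g = inner ℂ gx (Φ.symm (v, (0 : F))) := by
    rw [hg, ← Gs.inner_starProjection_left_eq_right, Submodule.starProjection_eq_self_iff.2 hgxG]
  rw [WithLp.prod_inner_apply, WithLp.prod_inner_apply] at h1
  have h2 : inner ℂ (T x) (0 : F) = 0 := inner_zero_right _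
  have h3 : inner ℂ (x : E) (Φ g).1 + inner ℂ (T x) (Φ g).2 =
      inner ℂ (x : E) v + inner ℂ (T x) (0 : F) := h1
  rw [h3, h2, add_zero]

theorem abs_resolvent_cs {a b c d N : ℝ} (hN : 0 ≤ N) (h : N ≤ a * b + c * d) : N ^ 2 ≤ (b ^ 2 + d ^ 2) * (a ^ 2 + c ^ 2) := by
  have h1 : N ^ 2 ≤ (a * b + c * d) ^ 2 := pow_le_pow_left₀ hN h 2
  nlinarith [sq_nonneg (a * d - b * c)]

theorem abs_resolvent {E F : Type*} [NormedAddCommGroup E] [InnerProductSpace ℂ E]
    [CompleteSpace E] [NormedAddCommGroup F] [InnerProductSpace ℂ F] [CompleteSpace F]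
    (T : E →ₗ.[ℂ] F) (hd : Dense (T.domain : Set E)) (hc : T.IsClosable) :
    ∃ R : E →L[ℂ] E, IsResolvent T R ∧ ‖R‖ ≤ 1 ∧
      ∀ (u : E) (hu : u ∈ T.closure.domain),
        ‖u‖ ^ 4 ≤ (‖u‖ ^ 2 + ‖T.closure ⟨u, hu⟩‖ ^ 2) * (inner ℂ (R u) u).re := by
  obtain ⟨R, hR⟩ := abs_resolvent_exists T.closure hc.closure_isClosed
  choose hRd hkey using hR
  -- `⟨R v, w⟩` in a symmetric form
  have hsym : ∀ v w : E, inner ℂ (R v) w = inner ℂ (R v) (R w) +
      inner ℂ (T.closure ⟨R v, hRd v⟩) (T.closure ⟨R w, hRd w⟩) := by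
    intro v w
    exact (hkey w ⟨R v, hRd v⟩).symm
  have hsym2 : ∀ v w : E, inner ℂ (R v) w = inner ℂ v (R w) := by
    intro v w
    calc inner ℂ (R v) w = inner ℂ (R v) (R w) +
          inner ℂ (T.closure ⟨R v, hRd v⟩) (T.closure ⟨R w, hRd w⟩) := hsym v w
      _ = (starRingEnd ℂ) (inner ℂ (R w) (R v) +
          inner ℂ (T.closure ⟨R w, hRd w⟩) (T.closure ⟨R v, hRd v⟩)) := by
          rw [map_add, inner_conj_symm, inner_conj_symm]
      _ = (starRingEnd ℂ) (inner ℂ (R w) v) := by rw [← hsym w v]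
      _ = inner ℂ v (R w) := inner_conj_symm _ _
  have hRu : ∀ u : E, (inner ℂ (R u) u).re = ‖R u‖ ^ 2 + ‖T.closure ⟨R u, hRd u⟩‖ ^ 2 := by
    intro u
    rw [hsym, inner_self_eq_norm_sq_to_K, inner_self_eq_norm_sq_to_K, Complex.add_re]
    norm_cast
  have hnorm : ∀ u : E, ‖R u‖ ≤ ‖u‖ := by
    intro u
    have h1 := hRu u
    have h2 : (inner ℂ (R u) u).re ≤ ‖R u‖ * ‖u‖ :=
      (Complex.re_le_norm _).trans (norm_inner_le_norm _ _)
    have h3 : ‖R u‖ * ‖R u‖ ≤ ‖R u‖ * ‖u‖ := by nlinarith [sq_nonneg ‖T.closure ⟨R u, hRd u⟩‖]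
    rcases (norm_nonneg (R u)).eq_or_lt with h0 | h0
    · rw [← h0]; exact norm_nonneg _
    · exact le_of_mul_le_mul_left h3 h0
  have hle : T ≤ T.closure := T.le_closure
  refine ⟨R, ⟨⟨fun v w => hsym2 v w, fun x => ?_⟩, ?_, ?_⟩, ?_, ?_⟩
  · show 0 ≤ (inner ℂ (R x) x).re
    rw [hRu]; positivity
  · -- right inverse
    intro v
    have hk : ∀ x : T.domain, inner ℂ (v - R v) (x : E) =
        inner ℂ (T.closure ⟨R v, hRd v⟩) (T x) := by
      intro x
      have hx' : (x : E) ∈ T.closure.domain := hle.1 x.2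
      have hTx : T.closure ⟨x, hx'⟩ = T x := (hle.2 (x := x) (y := ⟨x, hx'⟩) rfl).symm
      have h1 := hkey v ⟨x, hx'⟩
      rw [hTx] at h1
      have h2 := congrArg (starRingEnd ℂ) h1
      rw [map_add, inner_conj_symm, inner_conj_symm, inner_conj_symm] at h2
      rw [inner_sub_left, ← h2]
      ring
    have hkd : T.closure ⟨R v, hRd v⟩ ∈ T.adjoint.domain :=
      LinearPMap.mem_adjoint_domain_of_exists _ ⟨v - R v, hk⟩
    exact ⟨hRd v, hkd, LinearPMap.adjoint_apply_eq hd ⟨_, hkd⟩ hk⟩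
  · -- left inverse
    rintro u w ⟨hu, hkd, hw⟩
    have h1 : ∀ x : T.domain, inner ℂ w (x : E) = inner ℂ (T.closure ⟨u, hu⟩) (T x) := by
      intro x
      have := LinearPMap.adjoint_isFormalAdjoint hd ⟨T.closure ⟨u, hu⟩, hkd⟩ x
      rw [← hw]
      exact this
    have h2 : ∀ x : T.closure.domain, inner ℂ w (x : E) =
        inner ℂ (T.closure ⟨u, hu⟩) (T.closure x) := by
      intro x
      have hx := T.closure.mem_graph x
      rw [← hc.graph_closure_eq_closure_graph] at hx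
      have hset : IsClosed {p : E × F | inner ℂ w p.1 = inner ℂ (T.closure ⟨u, hu⟩) p.2} :=
        isClosed_eq (by fun_prop) (by fun_prop)
      have hsub : (T.graph : Set (E × F)) ⊆
          {p : E × F | inner ℂ w p.1 = inner ℂ (T.closure ⟨u, hu⟩) p.2} := by
        intro p hp
        obtain ⟨y, hy1, hy2⟩ := (LinearPMap.mem_graph_iff T).1 hp
        show inner ℂ w p.1 = inner ℂ (T.closure ⟨u, hu⟩) p.2
        rw [← hy1, ← hy2]
        exact h1 y
      have h3 := closure_minimal hsub hset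
      have h4 : ((x : E), T.closure x) ∈ _root_.closure (T.graph : Set (E × F)) := by
        rw [← Submodule.topologicalClosure_coe]; exact hx
      exact h3 h4
    set v := u + w with hv
    have hdd : R v - u ∈ T.closure.domain := T.closure.domain.sub_mem (hRd v) hu
    set y : T.closure.domain := ⟨R v - u, hdd⟩ with hy
    have hyT : T.closure y = T.closure ⟨R v, hRd v⟩ - T.closure ⟨u, hu⟩ := by
      have : y = (⟨R v, hRd v⟩ : T.closure.domain) - ⟨u, hu⟩ := Subtype.ext rfl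
      rw [this, LinearPMap.map_sub]
    have h5 := hkey v y
    have h6 : inner ℂ (y : E) v = inner ℂ (y : E) u + inner ℂ (T.closure y) (T.closure ⟨u, hu⟩) := by
      rw [hv, inner_add_right]
      congr 1
      have := congrArg (starRingEnd ℂ) (h2 y)
      rw [inner_conj_symm, inner_conj_symm] at this
      exact this
    have h7 : inner ℂ (y : E) (y : E) + inner ℂ (T.closure y) (T.closure y) = 0 := by
      have e1 : inner ℂ (y : E) (y : E) = inner ℂ (y : E) (R v) - inner ℂ (y : E) u :=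
        inner_sub_right _ _ _
      have e2 : inner ℂ (T.closure y) (T.closure y) =
          inner ℂ (T.closure y) (T.closure ⟨R v, hRd v⟩) -
          inner ℂ (T.closure y) (T.closure ⟨u, hu⟩) := by
        conv_lhs => rw [show inner ℂ (T.closure y) (T.closure y) =
          inner ℂ (T.closure y) (T.closure ⟨R v, hRd v⟩ - T.closure ⟨u, hu⟩) by rw [← hyT]]
        exact inner_sub_right _ _ _
      rw [e1, e2]
      linear_combination h5 + h6
    have h8 : ‖(y : E)‖ ^ 2 + ‖T.closure y‖ ^ 2 = 0 := by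
      have h7' := congrArg Complex.re h7
      rw [inner_self_eq_norm_sq_to_K, inner_self_eq_norm_sq_to_K, Complex.add_re,
        Complex.zero_re] at h7'
      exact_mod_cast h7'
    have h9 : ‖(y : E)‖ = 0 := by
      nlinarith [sq_nonneg ‖(y : E)‖, sq_nonneg ‖T.closure y‖, norm_nonneg (y : E)]
    exact sub_eq_zero.1 (norm_eq_zero.1 h9)
  · exact R.opNorm_le_bound zero_le_one (fun x => by rw [one_mul]; exact hnorm x)
  · intro u hu
    rw [hRu]
    have h1 := hkey u ⟨u, hu⟩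
    have h2 : ‖u‖ ^ 2 ≤ ‖R u‖ * ‖u‖ + ‖T.closure ⟨R u, hRd u⟩‖ * ‖T.closure ⟨u, hu⟩‖ := by
      have e1 : ‖u‖ ^ 2 = ‖inner ℂ u u‖ := by
        rw [inner_self_eq_norm_sq_to_K]; simp
      rw [e1]
      have e2 : (inner ℂ u u : ℂ) = inner ℂ u (R u) +
          inner ℂ (T.closure ⟨u, hu⟩) (T.closure ⟨R u, hRd u⟩) := h1.symm
      rw [e2]
      refine (norm_add_le _ _).trans ?_
      have e3 := norm_inner_le_norm (𝕜 := ℂ) u (R u)
      have e4 := norm_inner_le_norm (𝕜 := ℂ) (T.closure ⟨u, hu⟩) (T.closure ⟨R u, hRd u⟩)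
      linarith
    have h3 := abs_resolvent_cs (sq_nonneg ‖u‖) h2
    calc ‖u‖ ^ 4 = (‖u‖ ^ 2) ^ 2 := by ring
      _ ≤ _ := h3

end Pool.Agent.Helper228.OP
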