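import Pool.Agent.Helper228.OP.Defs

open MeasureTheory Filter Topology

namespace Pool.Agent.Helper228.OP
open Pool.Agent.Helper228.MM


theorem bump_l2 (η : ℝ → ℝ) (hη : Continuous η) (h0 : ∀ x, x ∉ Set.Icc (1 : ℝ) 2 → η x = 0)
    (n : ℕ) (hn : 1 ≤ n) :
    (1 / (2 * Real.pi)) * (∫ x in (1 : ℝ)..2, η x ^ 2)
        ≤ ∫ x, (8 ^ n * η (4 ^ n * x)) ^ 2 ∂rho ∧
    ∫ x, (8 ^ n * η (4 ^ n * x)) ^ 2 ∂rho ≤ 2 * ∫ x in (1 : ℝ)..2, η x ^ 2 := by
  obtain ⟨G, hG⟩ : ∃ G : ℝ → ℝ, G = fun u =>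
    u ^ 2 * Real.sqrt (4 - (u / 4 ^ n) ^ 2) / (2 * Real.pi) * η u ^ 2 := ⟨_, rfl⟩
  have hGc : Continuous G := by rw [hG]; fun_prop
  have h4 : (0 : ℝ) < 4 ^ n := by positivity
  have hpi := Real.pi_pos
  have hpi3 := Real.pi_gt_three
  have e1 : ∫ x, (8 ^ n * η (4 ^ n * x)) ^ 2 ∂rho = ∫ u, G u := by
    unfold rho
    rw [integral_withDensity_eq_integral_toReal_smul rhoD_cont.measurable.ennreal_ofReal
      (Eventually.of_forall fun x => ENNReal.ofReal_lt_top)]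
    have e2 : ∀ x, (ENNReal.ofReal (rhoD x)).toReal • (8 ^ n * η (4 ^ n * x)) ^ 2 =
        4 ^ n * G (4 ^ n * x) := by
      intro x
      rw [ENNReal.toReal_ofReal (rhoD_nonneg x), smul_eq_mul, hG]
      unfold rhoD
      have e3 : 4 ^ n * x / 4 ^ n = x := by field_simp
      simp only [e3]
      have h64 : (8 : ℝ) ^ n * 8 ^ n = 4 ^ n * (4 ^ n * 4 ^ n) := by
        rw [← mul_pow, ← mul_pow, ← mul_pow]; norm_num
      linear_combination (x ^ 2 * Real.sqrt (4 - x ^ 2) / (2 * Real.pi) *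
        η (4 ^ n * x) ^ 2) * h64
    simp only [e2]
    rw [integral_const_mul, Measure.integral_comp_mul_left G, abs_of_pos (by positivity),
      smul_eq_mul]
    field_simp
  have e4 : ∫ u, G u = ∫ u in (1 : ℝ)..2, G u := by
    rw [intervalIntegral.integral_of_le (by norm_num), ← integral_Icc_eq_integral_Ioc]
    refine (setIntegral_eq_integral_of_forall_compl_eq_zero fun x hx => ?_).symm
    rw [hG]
    simp [h0 x hx]
  rw [e1, e4, ← intervalIntegral.integral_const_mul, ← intervalIntegral.integral_const_mul]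
  have hb : ∀ u ∈ Set.Icc (1 : ℝ) 2, 1 ≤ u ^ 2 * Real.sqrt (4 - (u / 4 ^ n) ^ 2) ∧
      u ^ 2 * Real.sqrt (4 - (u / 4 ^ n) ^ 2) ≤ 8 := by
    intro u hu
    have h44 : (4 : ℝ) ≤ 4 ^ n := by
      calc (4 : ℝ) = 4 ^ 1 := by norm_num
        _ ≤ 4 ^ n := pow_le_pow_right₀ (by norm_num) hn
    have h5 : u / 4 ^ n ≤ 1 / 2 := by
      rw [div_le_iff₀ h4]
      linarith [hu.2]
    have h6 : 0 ≤ u / 4 ^ n := div_nonneg (by linarith [hu.1]) h4.le
    have h7 : (u / 4 ^ n) ^ 2 ≤ 1 := by nlinarith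
    have h8 : 1 ≤ Real.sqrt (4 - (u / 4 ^ n) ^ 2) := by
      rw [Real.one_le_sqrt]
      linarith
    have h9 : Real.sqrt (4 - (u / 4 ^ n) ^ 2) ≤ 2 := by
      rw [Real.sqrt_le_left (by norm_num)]
      nlinarith [sq_nonneg (u / 4 ^ n)]
    have h10 : 1 ≤ u ^ 2 := by nlinarith [hu.1]
    have h11 : u ^ 2 ≤ 4 := by nlinarith [hu.1, hu.2]
    constructor
    · nlinarith
    · nlinarith
  constructor
  · apply intervalIntegral.integral_mono_on (by norm_num)
      ((by fun_prop : Continuous fun u => 1 / (2 * Real.pi) * η u ^ 2).intervalIntegrable _ _)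
      (hGc.intervalIntegrable _ _)
    intro u hu
    rw [hG]
    have h12 := (hb u hu).1
    have h13 : 1 / (2 * Real.pi) ≤ u ^ 2 * Real.sqrt (4 - (u / 4 ^ n) ^ 2) / (2 * Real.pi) := by
      gcongr
    exact mul_le_mul_of_nonneg_right h13 (sq_nonneg _)
  · apply intervalIntegral.integral_mono_on (by norm_num)
      (hGc.intervalIntegrable _ _)
      ((by fun_prop : Continuous fun u => 2 * η u ^ 2).intervalIntegrable _ _)
    intro u hu
    rw [hG]
    have h12 := (hb u hu).2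
    have h13 : u ^ 2 * Real.sqrt (4 - (u / 4 ^ n) ^ 2) / (2 * Real.pi) ≤ 2 := by
      rw [div_le_iff₀ (by positivity)]
      linarith
    exact mul_le_mul_of_nonneg_right h13 (sq_nonneg _)

end Pool.Agent.Helper228.OP
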