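import Pool.Agent.Helper228.OP.Defs

open MeasureTheory Filter Topology

namespace Pool.Agent.Helper228.OP
open Pool.Agent.Helper228.MM


theorem bump_one : ∃ η : ℝ → ℝ, ContDiff ℝ 1 η ∧ (∀ x, x ∉ Set.Icc (1 : ℝ) 2 → η x = 0) ∧
    (∃ L : ℝ, 0 ≤ L ∧ (∀ x y, |η x - η y| ≤ L * |x - y|) ∧ (∀ x, |η x| ≤ L)) ∧
    0 < ∫ x in (1 : ℝ)..2, η x ^ 2 := by
  let f : ContDiffBump (3 / 2 : ℝ) := ⟨1 / 4, 1 / 2, by norm_num, by norm_num⟩
  have hcd : ContDiff ℝ 1 (f : ℝ → ℝ) := f.contDiff
  obtain ⟨C, hC⟩ := hcd.lipschitzWith_of_hasCompactSupport f.hasCompactSupport one_ne_zero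
  refine ⟨f, hcd, ?_, ⟨max (C : ℝ) 1, le_max_of_le_right zero_le_one, ?_, ?_⟩, ?_⟩
  · intro x hx
    refine f.zero_of_le_dist ?_
    rw [Real.dist_eq]
    by_contra hlt
    push Not at hlt
    have : |x - 3 / 2| < 1 / 2 := hlt
    rw [abs_lt] at this
    exact hx ⟨by linarith [this.1], by linarith [this.2]⟩
  · intro x y
    have h1 := hC.dist_le_mul x y
    rw [Real.dist_eq, Real.dist_eq] at h1
    exact h1.trans (mul_le_mul_of_nonneg_right (le_max_left _ _) (abs_nonneg _))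
  · intro x
    rw [abs_of_nonneg f.nonneg]
    exact f.le_one.trans (le_max_right _ _)
  · refine intervalIntegral.intervalIntegral_pos_of_pos_on ?_ ?_ (by norm_num)
    · exact (hcd.continuous.pow 2).intervalIntegrable _ _
    · intro x hx
      have : 0 < f x := f.pos_of_mem_ball (by
        rw [Metric.mem_ball, Real.dist_eq, abs_lt]
        have h1 : (1:ℝ) < x := hx.1
        have h2 : x < 2 := hx.2
        constructor
        · show -(1 / 2 : ℝ) < x - 3 / 2
          linarith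
        · show x - 3 / 2 < (1 / 2 : ℝ)
          linarith)
      positivity
end Pool.Agent.Helper228.OP
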