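import Pool.Agent.Helper228.OP.Defs

open MeasureTheory Filter Topology

namespace Pool.Agent.Helper228.OP
open Pool.Agent.Helper228.MM


theorem inv_sq : Integrable (fun y : ℝ => 1 / y ^ 2) rho ∧ ∫ y, 1 / y ^ 2 ∂rho ≤ 2 := by
  have hm : Measurable (fun x => ENNReal.ofReal (rhoD x)) := rhoD_cont.measurable.ennreal_ofReal
  have hlt : ∀ᵐ x ∂(volume : Measure ℝ), ENNReal.ofReal (rhoD x) < ⊤ :=
    Eventually.of_forall (fun x => ENNReal.ofReal_lt_top)
  obtain ⟨h, hdef⟩ : ∃ h : ℝ → ℝ, h = fun y => Real.sqrt (4 - y ^ 2) / (2 * Real.pi) := ⟨_, rfl⟩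
  have hh : (fun y : ℝ => (ENNReal.ofReal (rhoD y)).toReal • (1 / y ^ 2)) =ᵐ[volume] h := by
    have h0 : ∀ᵐ y ∂(volume : Measure ℝ), y ≠ 0 := by
      rw [ae_iff]; simp
    filter_upwards [h0] with y hy
    rw [ENNReal.toReal_ofReal (rhoD_nonneg y), hdef]
    simp only [rhoD, smul_eq_mul]
    field_simp
  have hcont : Continuous h := by
    rw [hdef]; fun_prop
  have hsupp : ∀ y, y ∉ Set.Icc (-2 : ℝ) 2 → h y = 0 := by
    intro y hy
    rw [hdef]
    have h1 : 4 - y ^ 2 ≤ 0 := by
      rw [Set.mem_Icc, not_and_or, not_le, not_le] at hy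
      rcases hy with h | h <;> nlinarith
    simp only
    rw [Real.sqrt_eq_zero_of_nonpos h1]; simp
  have hind : h = Set.indicator (Set.Icc (-2 : ℝ) 2) h := by
    ext y
    by_cases hy : y ∈ Set.Icc (-2 : ℝ) 2
    · rw [Set.indicator_of_mem hy]
    · rw [Set.indicator_of_notMem hy, hsupp y hy]
  have hion : IntegrableOn h (Set.Icc (-2 : ℝ) 2) :=
    hcont.continuousOn.integrableOn_compact isCompact_Icc
  have hint : Integrable h := by
    rw [hind]
    exact hion.integrable_indicator measurableSet_Icc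
  constructor
  · unfold rho
    rw [integrable_withDensity_iff_integrable_smul' hm hlt]
    exact hint.congr hh.symm
  · unfold rho
    rw [integral_withDensity_eq_integral_toReal_smul hm hlt, integral_congr_ae hh, hind,
      integral_indicator measurableSet_Icc]
    have hpi := Real.pi_gt_three
    have hle : ∫ y in Set.Icc (-2 : ℝ) 2, h y ≤ ∫ y in Set.Icc (-2 : ℝ) 2, (1 / 3 : ℝ) := by
      apply setIntegral_mono_on hion _ measurableSet_Icc
      · intro y hy
        rw [hdef]
        simp only
        have h1 : Real.sqrt (4 - y ^ 2) ≤ 2 := by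
          rw [Real.sqrt_le_left (by norm_num)]
          nlinarith [sq_nonneg y]
        rw [div_le_div_iff₀ (by positivity) (by norm_num)]
        nlinarith
      · exact integrableOn_const (by simp) (by simp)
    refine hle.trans ?_
    rw [setIntegral_const]
    simp
    norm_num

end Pool.Agent.Helper228.OP
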