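import Pool.Agent.Helper228.OP.Defs

open MeasureTheory Filter Topology

namespace Pool.Agent.Helper228.OP
open Pool.Agent.Helper228.MM


theorem rho_small (a : ℝ) (ha : 0 ≤ a) : rho.real (Set.Icc (-a) a) ≤ a ^ 3 := by
  have hle : ∀ x : ℝ, rhoD x ≤ x ^ 2 := by
    intro x
    unfold rhoD
    have h1 : Real.sqrt (4 - x ^ 2) ≤ 2 := by
      rw [Real.sqrt_le_left (by norm_num)]
      nlinarith [sq_nonneg x]
    have h2 := Real.pi_gt_three
    rw [div_le_iff₀ (by positivity)]
    have h3 : x ^ 2 * Real.sqrt (4 - x ^ 2) ≤ x ^ 2 * 2 :=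
      mul_le_mul_of_nonneg_left h1 (sq_nonneg x)
    nlinarith [sq_nonneg x]
  have hint : ∫ x in Set.Icc (-a) a, x ^ 2 = 2 * a ^ 3 / 3 := by
    rw [integral_Icc_eq_integral_Ioc, ← intervalIntegral.integral_of_le (by linarith), integral_pow]
    norm_num
    ring
  have hb : rho (Set.Icc (-a) a) ≤ ENNReal.ofReal (2 * a ^ 3 / 3) := by
    have hi : IntegrableOn (fun x : ℝ => x ^ 2) (Set.Icc (-a) a) :=
      (continuous_pow 2).continuousOn.integrableOn_compact isCompact_Icc
    unfold rho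
    rw [withDensity_apply _ measurableSet_Icc, ← hint,
      ofReal_integral_eq_lintegral_ofReal hi (Eventually.of_forall fun x => sq_nonneg x)]
    exact lintegral_mono fun x => ENNReal.ofReal_le_ofReal (hle x)
  have h3 : 0 ≤ a ^ 3 := by positivity
  have h4 : rho.real (Set.Icc (-a) a) ≤ 2 * a ^ 3 / 3 :=
    ENNReal.toReal_le_of_le_ofReal (by positivity) hb
  linarith

end Pool.Agent.Helper228.OP
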