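import Pool.Agent.Helper228.OP.Defs
import Pool.Agent.Helper228.OP.P_rho_small
import Pool.Agent.Helper228.OP.P_inv_sq

open MeasureTheory Filter Topology

namespace Pool.Agent.Helper228.OP
open Pool.Agent.Helper228.MM


theorem energy_bound_pt (f : ℝ → ℝ) (r L : ℝ) (hr : 0 < r) (hL : 0 ≤ L)
    (hsupp : ∀ x, x ∉ Set.Icc r (2 * r) → f x = 0) (x y : ℝ) (hx : 4 * r < |x|) :
    ((f x - f y) / (x - y)) ^ 2 ≤ 4 * ((1 / x ^ 2) * f y ^ 2) := by
  have hfx : f x = 0 := by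
    apply hsupp
    intro h
    have : |x| ≤ 2 * r := abs_le.2 ⟨by linarith [h.1], h.2⟩
    linarith
  by_cases hy : y ∈ Set.Icc r (2 * r)
  · have hxp : 0 < x ^ 2 := by
      have h0 : x ≠ 0 := by
        rw [← abs_pos]; linarith
      positivity
    have hd : x ^ 2 / 4 ≤ (x - y) ^ 2 := by
      have h1 : |x| / 2 ≤ |x - y| := by
        have h2 : |x| - |y| ≤ |x - y| := abs_sub_abs_le_abs_sub x y
        have h3 : |y| ≤ 2 * r := abs_le.2 ⟨by linarith [hy.1], hy.2⟩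
        linarith
      have h4 : (|x| / 2) ^ 2 ≤ |x - y| ^ 2 := pow_le_pow_left₀ (by positivity) h1 2
      rw [sq_abs, div_pow, sq_abs] at h4
      linarith
    have hd0 : 0 < (x - y) ^ 2 := by linarith [hd]
    rw [hfx, zero_sub, div_pow, neg_sq, div_le_iff₀ hd0]
    have h0 : x ≠ 0 := by
      rw [← abs_pos]; linarith
    have : 4 * (1 / x ^ 2 * f y ^ 2) * (x ^ 2 / 4) = f y ^ 2 := by
      field_simp
    calc f y ^ 2 = 4 * (1 / x ^ 2 * f y ^ 2) * (x ^ 2 / 4) := this.symm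
      _ ≤ _ := by
        refine mul_le_mul_of_nonneg_left hd (by positivity)
  · rw [hfx, hsupp y hy]
    simp

theorem energy_bound (f : ℝ → ℝ) (hf : Continuous f) (r L : ℝ) (hr : 0 < r) (hL : 0 ≤ L)
    (hsupp : ∀ x, x ∉ Set.Icc r (2 * r) → f x = 0)
    (hlip : ∀ x y, |f x - f y| ≤ L * |x - y|) :
    ∫ z, ((f z.1 - f z.2) / (z.1 - z.2)) ^ 2 ∂(rho.prod rho)
      ≤ L ^ 2 * (64 * r ^ 3) ^ 2 + 16 * ∫ x, f x ^ 2 ∂rho := by
  set I : ℝ → ℝ := Set.indicator (Set.Icc (-(4*r)) (4*r)) (fun _ => (1:ℝ)) with hI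
  have hIi : Integrable I rho := (integrable_const 1).indicator measurableSet_Icc
  have hIint : ∫ x, I x ∂rho = rho.real (Set.Icc (-(4*r)) (4*r)) := by
     rw [hI, integral_indicator_const _ measurableSet_Icc]; simp
  have hIle : ∫ x, I x ∂rho ≤ 64 * r ^ 3 := by
    rw [hIint]
    exact (rho_small (4*r) (by positivity)).trans (le_of_eq (by ring))
  have hIp : ∀ x, 0 ≤ I x := fun x => Set.indicator_nonneg (fun _ _ => zero_le_one) x
  have hI0 : 0 ≤ ∫ x, I x ∂rho := integral_nonneg hIp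
  have hI1 : ∀ x, |x| ≤ 4 * r → I x = 1 := by
    intro x hx
    rw [hI, Set.indicator_of_mem]
    exact ⟨(abs_le.1 hx).1, (abs_le.1 hx).2⟩
  have hfi : Integrable (fun x => f x ^ 2) rho := by
    refine Integrable.of_bound (Continuous.aestronglyMeasurable (by fun_prop)) ((L * (2 * r)) ^ 2)
      (Eventually.of_forall fun x => ?_)
    rw [Real.norm_eq_abs, abs_pow]
    refine pow_le_pow_left₀ (abs_nonneg _) ?_ 2
    by_cases hx : x ∈ Set.Icc r (2 * r)
    · have h := hlip x (3 * r)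
      rw [hsupp (3 * r) (fun h => by linarith [h.2]), sub_zero] at h
      refine h.trans (mul_le_mul_of_nonneg_left ?_ hL)
      rw [abs_le]
      constructor <;> linarith [hx.1, hx.2]
    · rw [hsupp x hx, abs_zero]
      positivity
  obtain ⟨hq, hq2⟩ := inv_sq
  have hq0 : 0 ≤ ∫ y, 1 / y ^ 2 ∂rho := integral_nonneg fun y => by positivity
  have hf0 : 0 ≤ ∫ y, f y ^ 2 ∂rho := integral_nonneg fun y => by positivity
  have hG1 : Integrable (fun z : ℝ × ℝ => L ^ 2 * (I z.1 * I z.2)) (rho.prod rho) :=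
    (hIi.mul_prod hIi).const_mul _
  have hG2 : Integrable (fun z : ℝ × ℝ => 4 * (f z.1 ^ 2 * (1 / z.2 ^ 2))) (rho.prod rho) :=
    (hfi.mul_prod hq).const_mul _
  have hG3 : Integrable (fun z : ℝ × ℝ => 4 * ((1 / z.1 ^ 2) * f z.2 ^ 2)) (rho.prod rho) :=
    (hq.mul_prod hfi).const_mul _
  have hle : ∀ z : ℝ × ℝ, ((f z.1 - f z.2) / (z.1 - z.2)) ^ 2 ≤
      L ^ 2 * (I z.1 * I z.2) + 4 * (f z.1 ^ 2 * (1 / z.2 ^ 2))
        + 4 * ((1 / z.1 ^ 2) * f z.2 ^ 2) := by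
    rintro ⟨x, y⟩
    simp only
    have p1 : 0 ≤ L ^ 2 * (I x * I y) := mul_nonneg (sq_nonneg _) (mul_nonneg (hIp x) (hIp y))
    have p2 : 0 ≤ 4 * (f x ^ 2 * (1 / y ^ 2)) := by positivity
    have p3 : 0 ≤ 4 * ((1 / x ^ 2) * f y ^ 2) := by positivity
    by_cases hx : |x| ≤ 4 * r
    · by_cases hy : |y| ≤ 4 * r
      · have h1 : ((f x - f y) / (x - y)) ^ 2 ≤ L ^ 2 := by
          rw [← sq_abs]
          refine pow_le_pow_left₀ (abs_nonneg _) ?_ 2
          rw [abs_div]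
          rcases eq_or_ne x y with rfl | hxy
          · simpa using hL
          · rw [div_le_iff₀ (abs_pos.2 (sub_ne_zero.2 hxy))]
            exact hlip x y
        rw [hI1 x hx, hI1 y hy]
        rw [hI1 x hx, hI1 y hy] at p1
        linarith
      · have h := energy_bound_pt f r L hr hL hsupp y x (not_le.1 hy)
        have e1 : ((f x - f y) / (x - y)) ^ 2 = ((f y - f x) / (y - x)) ^ 2 := by
          rw [← neg_sub (f y) (f x), ← neg_sub y x, neg_div_neg_eq]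
        rw [e1]
        have e2 : 4 * (f x ^ 2 * (1 / y ^ 2)) = 4 * ((1 / y ^ 2) * f x ^ 2) := by ring
        linarith
    · have h := energy_bound_pt f r L hr hL hsupp x y (not_le.1 hx)
      linarith
  refine (integral_mono_of_nonneg (Eventually.of_forall fun z => sq_nonneg _)
    ((hG1.add hG2).add hG3) (Eventually.of_forall hle)).trans ?_
  have e : ∫ z : ℝ × ℝ, (L ^ 2 * (I z.1 * I z.2) + 4 * (f z.1 ^ 2 * (1 / z.2 ^ 2))
        + 4 * ((1 / z.1 ^ 2) * f z.2 ^ 2)) ∂(rho.prod rho)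
      = L ^ 2 * ((∫ x, I x ∂rho) * ∫ x, I x ∂rho)
        + 4 * ((∫ x, f x ^ 2 ∂rho) * ∫ y, 1 / y ^ 2 ∂rho)
        + 4 * ((∫ y, 1 / y ^ 2 ∂rho) * ∫ x, f x ^ 2 ∂rho) := by
    have hG12 : Integrable (fun z : ℝ × ℝ => L ^ 2 * (I z.1 * I z.2)
        + 4 * (f z.1 ^ 2 * (1 / z.2 ^ 2))) (rho.prod rho) := hG1.add hG2
    rw [integral_add hG12 hG3, integral_add hG1 hG2, integral_const_mul,
      integral_const_mul, integral_const_mul,
      integral_prod_mul I I,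
      integral_prod_mul (fun x => f x ^ 2) (fun y => 1 / y ^ 2),
      integral_prod_mul (fun y => 1 / y ^ 2) (fun x => f x ^ 2)]
  refine (le_of_eq e).trans ?_
  have h1 : (∫ x, I x ∂rho) * ∫ x, I x ∂rho ≤ (64 * r ^ 3) ^ 2 := by
    rw [pow_two]
    exact mul_le_mul hIle hIle hI0 (by positivity)
  have h2 := mul_le_mul_of_nonneg_left h1 (sq_nonneg L)
  have h3 : (∫ x, f x ^ 2 ∂rho) * ∫ y, 1 / y ^ 2 ∂rho ≤ (∫ x, f x ^ 2 ∂rho) * 2 :=
    mul_le_mul_of_nonneg_left hq2 hf0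
  have h4 : (∫ y, 1 / y ^ 2 ∂rho) * ∫ x, f x ^ 2 ∂rho = (∫ x, f x ^ 2 ∂rho) * ∫ y, 1 / y ^ 2 ∂rho :=
    mul_comm _ _
  rw [h4]
  linarith

end Pool.Agent.Helper228.OP
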