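import Pool.Agent.Helper228.OP.Defs
import Pool.Agent.Helper228.OP.P_energy_bound
import Pool.Agent.Helper228.OP.P_bump_one
import Pool.Agent.Helper228.OP.P_bump_l2

open MeasureTheory Filter Topology

namespace Pool.Agent.Helper228.OP
open Pool.Agent.Helper228.MM


theorem bump_aux_disj (η : ℝ → ℝ) (h0 : ∀ x, x ∉ Set.Icc (1 : ℝ) 2 → η x = 0) (m n : ℕ)
    (hmn : m < n) (x : ℝ) (hm : η (4 ^ (m + 1) * x) ≠ 0) (hn : η (4 ^ (n + 1) * x) ≠ 0) : False := by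
  have h1 : 4 ^ (m + 1) * x ∈ Set.Icc (1 : ℝ) 2 := by
    by_contra h; exact hm (h0 _ h)
  have h2 : 4 ^ (n + 1) * x ∈ Set.Icc (1 : ℝ) 2 := by
    by_contra h; exact hn (h0 _ h)
  obtain ⟨k, rfl⟩ : ∃ k, n = m + 1 + k := ⟨n - (m + 1), by omega⟩
  have h3 : (4:ℝ) ^ (m + 1 + k + 1) * x = 4 ^ (k + 1) * (4 ^ (m + 1) * x) := by ring
  have h4 : (4:ℝ) ≤ 4 ^ (k + 1) := by
    calc (4:ℝ) = 4 ^ 1 := by norm_num
      _ ≤ 4 ^ (k + 1) := pow_le_pow_right₀ (by norm_num) (by omega)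
  have h5 := h2.2
  rw [h3] at h5
  nlinarith [h1.1]

theorem bump : ∃ f : ℕ → ℝ → ℝ, (∀ n, ContDiff ℝ 1 (f n)) ∧
    (∀ m n x, m ≠ n → f m x * f n x = 0) ∧
    ∃ c C : ℝ, 0 < c ∧ 0 < C ∧ ∀ n,
      c ≤ ∫ x, f n x ^ 2 ∂rho ∧ ∫ x, f n x ^ 2 ∂rho ≤ C ∧
      ∫ z, ((f n z.1 - f n z.2) / (z.1 - z.2)) ^ 2 ∂(rho.prod rho) ≤ C := by
  obtain ⟨η, hη, h0, ⟨L, hL, hlip, hbd⟩, hpos⟩ := bump_one
  obtain ⟨I, hI⟩ : ∃ I : ℝ, I = ∫ x in (1 : ℝ)..2, η x ^ 2 := ⟨_, rfl⟩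
  have hI0 : 0 < I := by rw [hI]; exact hpos
  refine ⟨fun n x => 8 ^ (n + 1) * η (4 ^ (n + 1) * x), ?_, ?_, 1 / (2 * Real.pi) * I,
    4096 * L ^ 2 + 32 * I, ?_, ?_, ?_⟩
  · intro n
    exact contDiff_const.mul (hη.comp (contDiff_const.mul contDiff_id))
  · intro m n x hmn
    by_contra hcon
    have h1 : η (4 ^ (m + 1) * x) ≠ 0 := by
      intro h; apply hcon; simp [h]
    have h2 : η (4 ^ (n + 1) * x) ≠ 0 := by
      intro h; apply hcon; simp [h]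
    rcases lt_or_gt_of_ne hmn with h | h
    · exact bump_aux_disj η h0 m n h x h1 h2
    · exact bump_aux_disj η h0 n m h x h2 h1
  · have := Real.pi_pos
    positivity
  · have : 0 ≤ L ^ 2 := sq_nonneg _
    linarith
  · intro n
    have h1 := bump_l2 η hη.continuous h0 (n + 1) (by omega)
    rw [← hI] at h1
    have h2 := energy_bound (fun x => 8 ^ (n + 1) * η (4 ^ (n + 1) * x))
      (continuous_const.mul (hη.continuous.comp (continuous_const.mul continuous_id)))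
      ((4:ℝ) ^ (n + 1))⁻¹ (8 ^ (n + 1) * (L * 4 ^ (n + 1))) (by positivity) (by positivity)
      (by
        intro x hx
        have h4 : 4 ^ (n + 1) * x ∉ Set.Icc (1 : ℝ) 2 := by
          intro h
          apply hx
          have hp : (0:ℝ) < 4 ^ (n + 1) := by positivity
          constructor
          · rw [inv_le_iff_one_le_mul₀' hp]
            exact h.1
          · rw [← div_eq_mul_inv, le_div_iff₀ hp]
            linarith [h.2]
        show 8 ^ (n + 1) * η (4 ^ (n + 1) * x) = 0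
        rw [h0 _ h4, mul_zero])
      (by
        intro x y
        show |8 ^ (n + 1) * η (4 ^ (n + 1) * x) - 8 ^ (n + 1) * η (4 ^ (n + 1) * y)| ≤ _
        rw [← mul_sub, abs_mul, abs_of_pos (by positivity : (0:ℝ) < 8 ^ (n + 1)), mul_assoc]
        refine mul_le_mul_of_nonneg_left ?_ (by positivity)
        refine (hlip _ _).trans (le_of_eq ?_)
        rw [← mul_sub, abs_mul, abs_of_pos (by positivity : (0:ℝ) < 4 ^ (n + 1)), mul_assoc])
    have h3 : (8 ^ (n + 1) * (L * 4 ^ (n + 1))) ^ 2 * (64 * (((4:ℝ) ^ (n + 1))⁻¹) ^ 3) ^ 2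
        ≤ 4096 * L ^ 2 := by
      have h5 : (8 ^ (n + 1) * (L * 4 ^ (n + 1))) ^ 2 * (64 * (((4:ℝ) ^ (n + 1))⁻¹) ^ 3) ^ 2
          = 4096 * L ^ 2 * (1 / 4) ^ (n + 1) := by
        have e1 : (8:ℝ) ^ (n + 1) = (2 ^ (n + 1)) ^ 3 := by
          rw [← pow_mul, mul_comm, pow_mul]; norm_num
        have e2 : (4:ℝ) ^ (n + 1) = (2 ^ (n + 1)) ^ 2 := by
          rw [← pow_mul, mul_comm, pow_mul]; norm_num
        have e3 : ((1:ℝ) / 4) ^ (n + 1) = ((2 ^ (n + 1)) ^ 2)⁻¹ := by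
          rw [one_div, inv_pow, e2]
        rw [e3, e1, e2]
        have h6 : ((2:ℝ) ^ (n + 1)) ≠ 0 := by positivity
        field_simp
        ring
      rw [h5]
      apply mul_le_of_le_one_right (by positivity)
      exact pow_le_one₀ (by norm_num) (by norm_num)
    refine ⟨h1.1, h1.2.trans ?_, h2.trans ?_⟩
    · have : 0 ≤ L ^ 2 := sq_nonneg _
      linarith
    · have h6 := h1.2
      have h7 : 16 * ∫ x, (fun x => 8 ^ (n + 1) * η (4 ^ (n + 1) * x)) x ^ 2 ∂rho ≤ 16 * (2 * I) :=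
        mul_le_mul_of_nonneg_left h6 (by norm_num)
      linarith

end Pool.Agent.Helper228.OP
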