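import Pool.Agent.Helper228.OP.Defs

open MeasureTheory Filter Topology

namespace Pool.Agent.Helper228.OP
open Pool.Agent.Helper228.MM


theorem c1_approx_antideriv (q : Polynomial ℝ) : ∃ P : Polynomial ℝ, P.derivative = q := by
  induction q using Polynomial.induction_on' with
  | add p q hp hq =>
    obtain ⟨P, rfl⟩ := hp
    obtain ⟨Q, rfl⟩ := hq
    exact ⟨P + Q, Polynomial.derivative_add⟩
  | monomial n a =>
    refine ⟨Polynomial.monomial (n + 1) (a / ((n : ℝ) + 1)), ?_⟩
    rw [Polynomial.derivative_monomial]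
    have h : (n : ℝ) + 1 ≠ 0 := by positivity
    congr 1
    push_cast
    field_simp

theorem c1_approx (f : ℝ → ℝ) (hf : ContDiff ℝ 1 f) (ε : ℝ) (hε : 0 < ε) :
    ∃ p : Polynomial ℝ, (∀ x ∈ Set.Icc (-2 : ℝ) 2, |p.eval x - f x| ≤ ε) ∧
      ∀ x ∈ Set.Icc (-2 : ℝ) 2, ∀ y ∈ Set.Icc (-2 : ℝ) 2, x ≠ y →
        |(p.eval x - p.eval y) / (x - y) - (f x - f y) / (x - y)| ≤ ε := by
  have hd : Continuous (deriv f) := hf.continuous_deriv le_rfl
  have hdf : Differentiable ℝ f := hf.differentiable one_ne_zero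
  obtain ⟨q, hq⟩ := exists_polynomial_near_of_continuousOn (-2) 2 (deriv f) hd.continuousOn
    (ε / 8) (by positivity)
  obtain ⟨P, hP⟩ := c1_approx_antideriv q
  let p : Polynomial ℝ := P + Polynomial.C (f (-2) - P.eval (-2))
  have hpd : p.derivative = q := by
    simp only [p, Polynomial.derivative_add, Polynomial.derivative_C, add_zero, hP]
  have hp2 : p.eval (-2) = f (-2) := by
    simp only [p, Polynomial.eval_add, Polynomial.eval_C]; ring
  let g : ℝ → ℝ := fun x => p.eval x - f x
  have hgd : ∀ x, HasDerivAt g (q.eval x - deriv f x) x := by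
    intro x
    have h1 := p.hasDerivAt x
    rw [hpd] at h1
    exact h1.sub (hdf x).hasDerivAt
  have hmv : ∀ x ∈ Set.Icc (-2 : ℝ) 2, ∀ y ∈ Set.Icc (-2 : ℝ) 2,
      |g x - g y| ≤ ε / 8 * |x - y| := by
    intro x hx y hy
    have := Convex.norm_image_sub_le_of_norm_deriv_le (f := g) (C := ε / 8) (s := Set.Icc (-2 : ℝ) 2)
      (x := y) (y := x)
      (fun z _ => (hgd z).differentiableAt)
      (fun z hz => by
        rw [(hgd z).deriv, Real.norm_eq_abs]
        exact (hq z hz).le)
      (convex_Icc _ _) hy hx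
    simpa [Real.norm_eq_abs] using this
  have hg2 : g (-2) = 0 := by
    simp only [g, hp2, sub_self]
  refine ⟨p, fun x hx => ?_, fun x hx y hy hxy => ?_⟩
  · have h := hmv x hx (-2) (by constructor <;> norm_num)
    rw [hg2, sub_zero] at h
    have h2 : |x - (-2)| ≤ 4 := by
      rw [abs_le]; constructor <;> linarith [hx.1, hx.2]
    calc |p.eval x - f x| = |g x| := rfl
      _ ≤ ε / 8 * |x - (-2)| := h
      _ ≤ ε / 8 * 4 := mul_le_mul_of_nonneg_left h2 (by positivity)
      _ ≤ ε := by linarith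
  · have h := hmv x hx y hy
    have hne : x - y ≠ 0 := sub_ne_zero.2 hxy
    have hpos : 0 < |x - y| := abs_pos.2 hne
    have e : (p.eval x - p.eval y) / (x - y) - (f x - f y) / (x - y) = (g x - g y) / (x - y) := by
      simp only [g]
      rw [← sub_div]
      congr 1
      ring
    rw [e, abs_div, div_le_iff₀ hpos]
    calc |g x - g y| ≤ ε / 8 * |x - y| := h
      _ ≤ ε * |x - y| := mul_le_mul_of_nonneg_right (by linarith) hpos.le

end Pool.Agent.Helper228.OP
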