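import Pool.Agent.Helper228.OP.Defs

open MeasureTheory Filter Topology

namespace Pool.Agent.Helper228.OP
open Pool.Agent.Helper228.MM


theorem diag_null : ∀ᵐ z ∂(rho.prod rho), z.1 ≠ z.2 := by
  rw [ae_iff]
  have hset : {z : ℝ × ℝ | ¬ z.1 ≠ z.2} = {z : ℝ × ℝ | z.1 = z.2} := by
    ext z
    simp
  have hm : MeasurableSet {z : ℝ × ℝ | z.1 = z.2} :=
    measurableSet_eq_fun measurable_fst measurable_snd
  rw [hset, Measure.measure_prod_null hm]
  refine Eventually.of_forall fun x => ?_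
  have e : Prod.mk x ⁻¹' {z : ℝ × ℝ | z.1 = z.2} = {x} := by
    ext y
    simp only [Set.mem_preimage, Set.mem_ofPred_eq, Set.mem_singleton_iff]
    exact eq_comm
  show rho (Prod.mk x ⁻¹' {z : ℝ × ℝ | z.1 = z.2}) = 0
  rw [e]
  exact measure_singleton x

end Pool.Agent.Helper228.OP
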