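import Pool.Agent.Helper228.OP.Defs

open MeasureTheory Filter Topology

namespace Pool.Agent.Helper228.OP
open Pool.Agent.Helper228.MM


theorem dq_formula (p : Polynomial ℂ) (z : ℝ × ℝ) :
    ((z.1 : ℂ) - (z.2 : ℂ)) * dqFun p z = p.eval (z.1 : ℂ) - p.eval (z.2 : ℂ) := by
  unfold dqFun
  rw [Polynomial.eval_eq_sum, Polynomial.eval_eq_sum, Polynomial.sum, Polynomial.sum,
    Polynomial.sum, Finset.mul_sum, ← Finset.sum_sub_distrib]
  refine Finset.sum_congr rfl fun k _ => ?_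
  have h := (Commute.all (z.1 : ℂ) (z.2 : ℂ)).mul_geom_sum₂ k
  calc ((z.1 : ℂ) - (z.2 : ℂ)) * (p.coeff k * ∑ l ∈ Finset.range k,
        (z.1 : ℂ) ^ l * (z.2 : ℂ) ^ (k - 1 - l))
      = p.coeff k * (((z.1 : ℂ) - (z.2 : ℂ)) * ∑ l ∈ Finset.range k,
        (z.1 : ℂ) ^ l * (z.2 : ℂ) ^ (k - 1 - l)) := by ring
    _ = p.coeff k * ((z.1 : ℂ) ^ k - (z.2 : ℂ) ^ k) := by rw [h]
    _ = _ := by ring

end Pool.Agent.Helper228.OP
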