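import Pool.Agent.Helper228.OP.Defs
import Pool.Agent.Helper228.OP.P_dq_formula
import Pool.Agent.Helper228.OP.P_del_apply

open MeasureTheory Filter Topology

namespace Pool.Agent.Helper228.OP
open Pool.Agent.Helper228.MM


theorem emb_coe (p : Polynomial ℂ) :
    (emb p : ℝ → ℂ) =ᵐ[rho] fun x => p.eval (x : ℂ) :=
  MemLp.coeFn_toLp (memLp_cont (g := fun x : ℝ => p.eval (x : ℂ)) (by fun_prop))

theorem dq_coe (p : Polynomial ℂ) :
    (dq p : ℝ × ℝ → ℂ) =ᵐ[rho.prod rho] dqFun p :=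
  MemLp.coeFn_toLp (memLp_cont2 (dqFun_cont p))

theorem graph_char (u : HH) (k : KK) (h : (u, k) ∈ closure ((del.graph : Set (HH × KK)))) :
    (fun z : ℝ × ℝ => ((z.1 : ℂ) - (z.2 : ℂ)) * k z) =ᵐ[rho.prod rho]
      fun z => u z.1 - u z.2 := by
  obtain ⟨w, hw, hlim⟩ := mem_closure_iff_seq_limit.mp h
  have hex : ∀ n, ∃ p, emb p = (w n).1 ∧ dq p = (w n).2 := by
    intro n
    obtain ⟨y, hy1, hy2⟩ := (LinearPMap.mem_graph_iff _).mp (hw n)
    obtain ⟨p, hp⟩ := y.2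
    obtain ⟨hd, he⟩ := del_apply p
    refine ⟨p, hp.trans hy1, ?_⟩
    rw [← he, ← hy2]
    congr 1
    exact Subtype.ext hp
  choose p hp1 hp2 using hex
  have h1 : Tendsto (fun n => emb (p n)) atTop (𝓝 u) := by
    have h3 : Tendsto (fun n => (w n).1) atTop (𝓝 u) := (continuous_fst.tendsto _).comp hlim
    exact h3.congr fun n => (hp1 n).symm
  have h2 : Tendsto (fun n => dq (p n)) atTop (𝓝 k) := by
    have h3 : Tendsto (fun n => (w n).2) atTop (𝓝 k) := (continuous_snd.tendsto _).comp hlim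
    exact h3.congr fun n => (hp2 n).symm
  obtain ⟨ns, hns, hae⟩ := (tendstoInMeasure_of_tendsto_Lp h1).exists_seq_tendsto_ae
  have h2' : Tendsto (fun n => dq (p (ns n))) atTop (𝓝 k) := h2.comp hns.tendsto_atTop
  obtain ⟨ms, hms, hae2⟩ := (tendstoInMeasure_of_tendsto_Lp h2').exists_seq_tendsto_ae
  have hA1 : ∀ᵐ z ∂(rho.prod rho), Tendsto (fun i => emb (p (ns i)) z.1) atTop (𝓝 (u z.1)) :=
    Measure.quasiMeasurePreserving_fst.ae hae
  have hA2 : ∀ᵐ z ∂(rho.prod rho), Tendsto (fun i => emb (p (ns i)) z.2) atTop (𝓝 (u z.2)) :=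
    Measure.quasiMeasurePreserving_snd.ae hae
  have hB : ∀ᵐ x ∂rho, ∀ n, emb (p n) x = (p n).eval (x : ℂ) :=
    ae_all_iff.mpr fun n => emb_coe _
  have hB1 : ∀ᵐ z ∂(rho.prod rho), ∀ n, emb (p n) z.1 = (p n).eval (z.1 : ℂ) :=
    Measure.quasiMeasurePreserving_fst.ae hB
  have hB2 : ∀ᵐ z ∂(rho.prod rho), ∀ n, emb (p n) z.2 = (p n).eval (z.2 : ℂ) :=
    Measure.quasiMeasurePreserving_snd.ae hB
  have hC : ∀ᵐ z ∂(rho.prod rho), ∀ n, dq (p n) z = dqFun (p n) z :=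
    ae_all_iff.mpr fun n => dq_coe _
  filter_upwards [hA1, hA2, hB1, hB2, hC, hae2] with z a1 a2 b1 b2 c d
  have e1 : Tendsto (fun i => (p (ns (ms i))).eval (z.1 : ℂ)) atTop (𝓝 (u z.1)) := by
    have := a1.comp hms.tendsto_atTop
    exact this.congr fun i => b1 _
  have e2 : Tendsto (fun i => (p (ns (ms i))).eval (z.2 : ℂ)) atTop (𝓝 (u z.2)) := by
    have := a2.comp hms.tendsto_atTop
    exact this.congr fun i => b2 _
  have e3 : Tendsto (fun i => dqFun (p (ns (ms i))) z) atTop (𝓝 (k z)) :=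
    d.congr fun i => c _
  have e4 := (e3.const_mul ((z.1 : ℂ) - (z.2 : ℂ))).congr fun i => dq_formula (p (ns (ms i))) z
  exact tendsto_nhds_unique e4 (e1.sub e2)

end Pool.Agent.Helper228.OP
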