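import Pool.Agent.Helper228.OP.Defs
import Pool.Agent.Helper228.OP.P_diag_null
import Pool.Agent.Helper228.OP.P_graph_char

open MeasureTheory Filter Topology

namespace Pool.Agent.Helper228.OP
open Pool.Agent.Helper228.MM


theorem del_closable : del.IsClosable := by
  refine ⟨del.graph.topologicalClosure.toLinearPMap, ?_⟩
  rw [Submodule.toLinearPMap_graph_eq]
  rintro ⟨u, k⟩ hx hu
  have hu' : u = 0 := hu
  subst hu'
  have h := graph_char 0 k hx
  have h0 : ∀ᵐ x ∂rho, ((0 : HH) : ℝ → ℂ) x = 0 := by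
    filter_upwards [Lp.coeFn_zero ℂ 2 rho] with x hx
    rw [hx]; rfl
  have h1 : ∀ᵐ z ∂(rho.prod rho), ((0 : HH) : ℝ → ℂ) z.1 = 0 :=
    Measure.quasiMeasurePreserving_fst.ae h0
  have h2 : ∀ᵐ z ∂(rho.prod rho), ((0 : HH) : ℝ → ℂ) z.2 = 0 :=
    Measure.quasiMeasurePreserving_snd.ae h0
  show k = 0
  rw [Lp.eq_zero_iff_ae_eq_zero]
  filter_upwards [h, h1, h2, diag_null] with z hz hz1 hz2 hne
  have hz' : ((z.1 : ℂ) - (z.2 : ℂ)) * k z = 0 := by
    rw [hz, hz1, hz2, sub_zero]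
  rcases mul_eq_zero.1 hz' with h3 | h3
  · exfalso
    apply hne
    rw [sub_eq_zero] at h3
    exact_mod_cast h3
  · exact h3

end Pool.Agent.Helper228.OP
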