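import Pool.Agent.Helper228.OP.Defs
import Pool.Agent.Helper228.OP.P_dq_formula
import Pool.Agent.Helper228.OP.P_diag_null
import Pool.Agent.Helper228.OP.P_del_apply
import Pool.Agent.Helper228.OP.P_del_closable
import Pool.Agent.Helper228.OP.P_c1_approx

open MeasureTheory Filter Topology

namespace Pool.Agent.Helper228.OP
open Pool.Agent.Helper228.MM


theorem lp_lim {α : Type*} [MeasurableSpace α] (μ : Measure α) [IsFiniteMeasure μ]
    (g : α → ℂ) (hg : AEStronglyMeasurable g μ) (F : ℕ → Lp ℂ 2 μ) (e : ℕ → ℝ)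
    (he0 : ∀ j, 0 ≤ e j) (he : Tendsto e atTop (𝓝 0))
    (hF : ∀ j, ∀ᵐ z ∂μ, ‖g z - F j z‖ ≤ e j) :
    ∃ G : Lp ℂ 2 μ, G =ᵐ[μ] g ∧ Tendsto F atTop (𝓝 G) := by
  have h1 : MemLp (fun z => g z - F 0 z) 2 μ :=
    MemLp.of_bound (hg.sub (Lp.aestronglyMeasurable (F 0))) (e 0) (hF 0)
  have h2 : MemLp g 2 μ := by
    have := h1.add (Lp.memLp (F 0))
    refine this.congr_norm hg (Eventually.of_forall fun z => ?_)
    simp
  refine ⟨h2.toLp g, h2.coeFn_toLp, ?_⟩
  rw [tendsto_iff_norm_sub_tendsto_zero]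
  have hb : ∀ j, ‖F j - h2.toLp g‖ ≤ measureUnivNNReal μ ^ (2 : ENNReal).toReal⁻¹ * e j := by
    intro j
    refine Lp.norm_le_of_ae_bound (he0 j) ?_
    filter_upwards [hF j, Lp.coeFn_sub (F j) (h2.toLp g), h2.coeFn_toLp] with z a b c
    rw [b, Pi.sub_apply, c, norm_sub_rev]
    exact a
  refine squeeze_zero (fun j => norm_nonneg _) hb ?_
  simpa using he.const_mul ((measureUnivNNReal μ : ℝ) ^ (2 : ENNReal).toReal⁻¹)

theorem c1_closure (f : ℝ → ℝ) (hf : ContDiff ℝ 1 f) :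
    ∃ (u : HH) (hu : u ∈ del.closure.domain),
      (u =ᵐ[rho] fun x => ((f x : ℝ) : ℂ)) ∧
      (del.closure ⟨u, hu⟩ =ᵐ[rho.prod rho]
        fun z => (((f z.1 - f z.2) / (z.1 - z.2) : ℝ) : ℂ)) := by
  have hfc : Continuous f := hf.continuous
  have he : ∀ j : ℕ, (0:ℝ) < 1 / ((j:ℝ) + 1) := fun j => by positivity
  choose p hp1 hp2 using fun j : ℕ => c1_approx f hf (1 / ((j:ℝ) + 1)) (he j)
  have hev : ∀ j (x : ℝ), ((p j).map (algebraMap ℝ ℂ)).eval (x:ℂ) = (((p j).eval x : ℝ) : ℂ) := by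
    intro j x
    rw [Polynomial.eval_map_algebraMap]
    exact Polynomial.aeval_algebraMap_apply_eq_algebraMap_eval x (p j)
  obtain ⟨u, hu, hut⟩ := lp_lim rho (fun x => ((f x : ℝ) : ℂ))
    (Complex.continuous_ofReal.comp hfc).aestronglyMeasurable
    (fun j => emb ((p j).map (algebraMap ℝ ℂ))) (fun j => 1 / ((j:ℝ) + 1))
    (fun j => (he j).le) tendsto_one_div_add_atTop_nhds_zero_nat (by
      intro j
      have h1 := (memLp_cont (g := fun x : ℝ => ((p j).map (algebraMap ℝ ℂ)).eval (x : ℂ))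
        (by fun_prop)).coeFn_toLp
      filter_upwards [rho_ae, h1] with x hx hx1
      have h3 : (emb ((p j).map (algebraMap ℝ ℂ)) : ℝ → ℂ) x =
        ((p j).map (algebraMap ℝ ℂ)).eval (x:ℂ) := hx1
      rw [h3, hev, ← Complex.ofReal_sub, Complex.norm_real, Real.norm_eq_abs, abs_sub_comm]
      exact hp1 j x hx)
  obtain ⟨k, hk, hkt⟩ := lp_lim (rho.prod rho)
    (fun z => (((f z.1 - f z.2) / (z.1 - z.2) : ℝ) : ℂ))
    (by
      have : Measurable fun z : ℝ × ℝ => (f z.1 - f z.2) / (z.1 - z.2) :=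
        ((hfc.measurable.comp measurable_fst).sub (hfc.measurable.comp measurable_snd)).div
          (measurable_fst.sub measurable_snd)
      exact (Complex.measurable_ofReal.comp this).aestronglyMeasurable)
    (fun j => dq ((p j).map (algebraMap ℝ ℂ))) (fun j => 1 / ((j:ℝ) + 1))
    (fun j => (he j).le) tendsto_one_div_add_atTop_nhds_zero_nat (by
      intro j
      have h1 := (memLp_cont2 (dqFun_cont ((p j).map (algebraMap ℝ ℂ)))).coeFn_toLp
      filter_upwards [ae_prod_Icc, diag_null, h1] with z hz hz1 hz2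
      have h3 : (dq ((p j).map (algebraMap ℝ ℂ)) : ℝ × ℝ → ℂ) z =
        dqFun ((p j).map (algebraMap ℝ ℂ)) z := hz2
      have h4 := dq_formula ((p j).map (algebraMap ℝ ℂ)) z
      rw [hev, hev] at h4
      have h5 : ((z.1:ℂ) - (z.2:ℂ)) ≠ 0 := by
        rw [← Complex.ofReal_sub]
        exact_mod_cast sub_ne_zero.mpr hz1
      have h6 : dqFun ((p j).map (algebraMap ℝ ℂ)) z =
        ((((p j).eval z.1 - (p j).eval z.2) / (z.1 - z.2) : ℝ) : ℂ) := by
        push_cast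
        rw [eq_div_iff h5, mul_comm]
        exact h4
      rw [h3, h6, ← Complex.ofReal_sub, Complex.norm_real, Real.norm_eq_abs, abs_sub_comm]
      exact hp2 j z.1 hz.1 z.2 hz.2 hz1)
  have hgr : (u, k) ∈ del.closure.graph := by
    rw [← del_closable.graph_closure_eq_closure_graph]
    refine mem_closure_of_tendsto (hut.prodMk_nhds hkt) (Eventually.of_forall fun j => ?_)
    obtain ⟨h, hh⟩ := del_apply ((p j).map (algebraMap ℝ ℂ))
    show _ ∈ del.graph
    rw [LinearPMap.mem_graph_iff]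
    exact ⟨⟨_, h⟩, rfl, hh⟩
  rw [LinearPMap.mem_graph_iff] at hgr
  obtain ⟨⟨y, hy⟩, hy1, hy2⟩ := hgr
  simp only at hy1 hy2
  subst hy1
  refine ⟨y, hy, hu, ?_⟩
  rw [hy2]
  exact hk

end Pool.Agent.Helper228.OP
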