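import Pool.Agent.Helper228.OP.Defs

open MeasureTheory Filter Topology

namespace Pool.Agent.Helper228.OP
open Pool.Agent.Helper228.MM


theorem compact_orth_bessel_aux {E : Type*} [NormedAddCommGroup E] [InnerProductSpace ℂ E]
    (f : ℕ → E) (ho : ∀ m n, m ≠ n → inner ℂ (f m) (f n) = 0) (C : ℝ) (hC : ∀ n, ‖f n‖ ≤ C)
    (h : E) : Tendsto (fun n => inner ℂ (f n) h) atTop (𝓝 0) := by
  have key : ∀ s : Finset ℕ, ∑ n ∈ s, ‖inner ℂ (f n) h‖ ^ 2 ≤ C ^ 2 * ‖h‖ ^ 2 := by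
    intro s
    set c : ℕ → ℂ := fun n => inner ℂ (f n) h with hc
    set v : E := ∑ n ∈ s, c n • f n with hv
    have hS0 : 0 ≤ ∑ n ∈ s, ‖c n‖ ^ 2 := Finset.sum_nonneg fun n _ => sq_nonneg _
    have h1 : inner ℂ v h = ((∑ n ∈ s, ‖c n‖ ^ 2 : ℝ) : ℂ) := by
      rw [hv, sum_inner, Complex.ofReal_sum]
      refine Finset.sum_congr rfl fun n _ => ?_
      rw [inner_smul_left]
      rw [show inner ℂ (f n) h = c n from rfl, Complex.ofReal_pow, ← Complex.conj_mul']
    have h2 : ‖v‖ ^ 2 ≤ C ^ 2 * ∑ n ∈ s, ‖c n‖ ^ 2 := by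
      have h3 : inner ℂ v v = ((∑ n ∈ s, ‖c n‖ ^ 2 * ‖f n‖ ^ 2 : ℝ) : ℂ) := by
        rw [hv, sum_inner, Complex.ofReal_sum]
        refine Finset.sum_congr rfl fun n hn => ?_
        rw [inner_sum, Finset.sum_eq_single n]
        · rw [inner_smul_left, inner_smul_right, inner_self_eq_norm_sq_to_K]
          push_cast
          rw [← mul_assoc, Complex.conj_mul']
          rfl
        · intro m _ hmn
          rw [inner_smul_left, inner_smul_right, ho n m hmn.symm]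
          simp
        · intro h
          exact absurd hn h
      have h4 : ‖v‖ ^ 2 = ∑ n ∈ s, ‖c n‖ ^ 2 * ‖f n‖ ^ 2 := by
        have h5 : ((‖v‖ ^ 2 : ℝ) : ℂ) = inner ℂ v v := by
          rw [inner_self_eq_norm_sq_to_K]
          push_cast
          rfl
        rw [h3] at h5
        exact_mod_cast h5
      rw [h4, Finset.mul_sum]
      refine Finset.sum_le_sum fun n _ => ?_
      have h6 : ‖f n‖ ^ 2 ≤ C ^ 2 := pow_le_pow_left₀ (norm_nonneg _) (hC n) 2
      nlinarith [sq_nonneg ‖c n‖]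
    generalize hS : ∑ n ∈ s, ‖c n‖ ^ 2 = S at *
    have h7 : S ≤ ‖v‖ * ‖h‖ := by
      have := norm_inner_le_norm (𝕜 := ℂ) v h
      rw [h1, Complex.norm_real, Real.norm_of_nonneg hS0] at this
      exact this
    have h8 : S * S ≤ S * (C ^ 2 * ‖h‖ ^ 2) := by
      calc S * S ≤ (‖v‖ * ‖h‖) * (‖v‖ * ‖h‖) := mul_self_le_mul_self hS0 h7
        _ = ‖v‖ ^ 2 * ‖h‖ ^ 2 := by ring
        _ ≤ (C ^ 2 * S) * ‖h‖ ^ 2 := mul_le_mul_of_nonneg_right h2 (sq_nonneg _)
        _ = _ := by ring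
    rcases hS0.eq_or_lt with h9 | h9
    · rw [← h9]
      positivity
    · exact le_of_mul_le_mul_left h8 h9
  have hsum : Summable (fun n => ‖inner ℂ (f n) h‖ ^ 2) :=
    summable_of_sum_le (fun n => sq_nonneg _) key
  have h0 := hsum.tendsto_atTop_zero
  rw [tendsto_zero_iff_norm_tendsto_zero]
  have := h0.sqrt
  simpa using this

theorem compact_orth {E : Type*} [NormedAddCommGroup E] [InnerProductSpace ℂ E]
    [CompleteSpace E] (K : E →L[ℂ] E) (hK : IsCompactOperator K) (f : ℕ → E)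
    (ho : ∀ m n, m ≠ n → inner ℂ (f m) (f n) = 0) (C : ℝ) (hC : ∀ n, ‖f n‖ ≤ C) :
    Tendsto (fun n => ‖K (f n)‖) atTop (𝓝 0) := by
  refine tendsto_of_subseq_tendsto fun ns hns => ?_
  have hcomp : IsCompact (closure (K '' Metric.closedBall 0 C)) :=
    hK.isCompact_closure_image_closedBall C
  obtain ⟨g, -, φ, hφ, hg⟩ := hcomp.tendsto_subseq (x := fun n => K (f (ns n))) (fun n =>
    subset_closure ⟨f (ns n), mem_closedBall_zero_iff.mpr (hC _), rfl⟩)
  have hg' : Tendsto (fun n => K (f (ns (φ n)))) atTop (𝓝 g) := hg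
  refine ⟨φ, ?_⟩
  have h1 : Tendsto (fun n => inner ℂ (K (f (ns (φ n)))) g) atTop (𝓝 (inner ℂ g g)) :=
    hg'.inner tendsto_const_nhds
  have h2 : Tendsto (fun n => inner ℂ (K (f (ns (φ n)))) g) atTop (𝓝 0) := by
    have h3 := (compact_orth_bessel_aux f ho C hC (ContinuousLinearMap.adjoint K g)).comp
      (hns.comp hφ.tendsto_atTop)
    refine h3.congr fun n => ?_
    simp [Function.comp, ContinuousLinearMap.adjoint_inner_right]
  have h4 : g = 0 := inner_self_eq_zero.mp (tendsto_nhds_unique h1 h2)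
  have h5 := hg'.norm
  rw [h4, norm_zero] at h5
  exact h5

end Pool.Agent.Helper228.OP
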