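import Pool.Agent.Helper228.OP.Defs

open MeasureTheory Filter Topology

namespace Pool.Agent.Helper228.OP
open Pool.Agent.Helper228.MM


theorem conj_real (hm : ∀ k : ℕ, (∑ l ∈ Finset.range k, (∫ x, x ^ l ∂rho) * ∫ x, x ^ (k - 1 - l) ∂rho)
      - (∫ x, x ^ (k + 3) ∂rho) + 2 * (∫ x, x ^ (k + 1) ∂rho) = 0) (p : Polynomial ℂ) :
    ∫ x : ℝ, (((x ^ 3 - 2 * x : ℝ)) : ℂ) * p.eval (x : ℂ) ∂rho
      = ∫ z, dqFun p z ∂(rho.prod rho) := by
  have hint : ∀ g : ℝ → ℂ, Continuous g → Integrable g rho := fun g hg =>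
    (memLp_cont hg).integrable (by norm_num)
  have hint2 : ∀ g : ℝ × ℝ → ℂ, Continuous g → Integrable g (rho.prod rho) := fun g hg =>
    (memLp_cont2 hg).integrable (by norm_num)
  have hintr : ∀ g : ℝ → ℝ, Continuous g → Integrable g rho := fun g hg => by
    have h := (hint (fun x => (g x : ℂ)) (by fun_prop)).re
    simpa using h
  have hpow : ∀ l : ℕ, ∫ x : ℝ, (x : ℂ) ^ l ∂rho = ((∫ x : ℝ, x ^ l ∂rho : ℝ) : ℂ) := by
    intro l
    rw [← integral_complex_ofReal]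
    congr 1
    ext x
    push_cast
    rfl
  have hL : ∫ x : ℝ, (((x ^ 3 - 2 * x : ℝ)) : ℂ) * p.eval (x : ℂ) ∂rho =
      ∑ k ∈ p.support, p.coeff k *
        (((∫ x, x ^ (k + 3) ∂rho) - 2 * (∫ x, x ^ (k + 1) ∂rho) : ℝ) : ℂ) := by
    have h1 : (fun x : ℝ => (((x ^ 3 - 2 * x : ℝ)) : ℂ) * p.eval (x : ℂ)) =
        fun x : ℝ => ∑ k ∈ p.support, p.coeff k * (((x ^ (k + 3) - 2 * x ^ (k + 1) : ℝ)) : ℂ) := by
      ext x
      rw [Polynomial.eval_eq_sum, Polynomial.sum_def, Finset.mul_sum]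
      refine Finset.sum_congr rfl fun k _ => ?_
      push_cast
      ring
    rw [h1, integral_finsetSum _ (fun k _ => hint _ (by fun_prop))]
    refine Finset.sum_congr rfl fun k _ => ?_
    rw [integral_const_mul, integral_complex_ofReal, integral_sub (hintr _ (by fun_prop))
      (hintr _ (by fun_prop)), integral_const_mul]
  have hR : ∫ z, dqFun p z ∂(rho.prod rho) =
      ∑ k ∈ p.support, p.coeff k *
        ((∑ l ∈ Finset.range k, (∫ x, x ^ l ∂rho) * ∫ x, x ^ (k - 1 - l) ∂rho : ℝ) : ℂ) := by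
    unfold dqFun
    simp only [Polynomial.sum_def]
    rw [integral_finsetSum _ (fun k _ => hint2 _ (by fun_prop))]
    refine Finset.sum_congr rfl fun k _ => ?_
    rw [integral_const_mul, integral_finsetSum _ (fun l _ => hint2 _ (by fun_prop))]
    congr 1
    rw [Complex.ofReal_sum]
    refine Finset.sum_congr rfl fun l _ => ?_
    rw [integral_prod_mul (fun x : ℝ => (x : ℂ) ^ l) (fun y : ℝ => (y : ℂ) ^ (k - 1 - l)),
      hpow, hpow]
    push_cast
    rfl
  rw [hL, hR]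
  refine Finset.sum_congr rfl fun k _ => ?_
  congr 2
  linarith [hm k]

end Pool.Agent.Helper228.OP
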