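import Pool.Agent.Helper228.OP.Defs
import Pool.Agent.Helper228.OP.P_emb_dense
import Pool.Agent.Helper228.OP.P_del_apply
import Pool.Agent.Helper228.OP.P_conj_real

open MeasureTheory Filter Topology

namespace Pool.Agent.Helper228.OP
open Pool.Agent.Helper228.MM


theorem dqX_fun : dqFun Polynomial.X = fun _ => (1 : ℂ) := by
  ext z
  unfold dqFun
  rw [Polynomial.sum_X_index (by simp)]
  simp

theorem conj_adjoint (hm : ∀ k : ℕ, (∑ l ∈ Finset.range k, (∫ x, x ^ l ∂rho) * ∫ x, x ^ (k - 1 - l) ∂rho)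
      - (∫ x, x ^ (k + 3) ∂rho) + 2 * (∫ x, x ^ (k + 1) ∂rho) = 0) :
    dq Polynomial.X = (memLp_cont2 (g := fun _ => (1 : ℂ)) continuous_const).toLp _ ∧
    ∃ h : dq Polynomial.X ∈ del.adjoint.domain,
      del.adjoint ⟨dq Polynomial.X, h⟩ = emb (Polynomial.X ^ 3 - 2 * Polynomial.X) := by
  have h1 : dq Polynomial.X = (memLp_cont2 (g := fun _ => (1 : ℂ)) continuous_const).toLp _ := by
    show (memLp_cont2 (dqFun_cont Polynomial.X)).toLp _ = _
    rw [MemLp.toLp_eq_toLp_iff]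
    rw [dqX_fun]
  have hd : Dense (del.domain : Set HH) := emb_dense
  have key : ∀ x : del.domain, inner ℂ (emb (Polynomial.X ^ 3 - 2 * Polynomial.X)) (x : HH)
      = inner ℂ (dq Polynomial.X) (del x) := by
    intro x
    obtain ⟨p, hpx⟩ := x.2
    obtain ⟨h, hp⟩ := del_apply p
    have hx : x = ⟨emb p, h⟩ := Subtype.ext hpx.symm
    rw [hx, hp, h1]
    rw [L2.inner_def, L2.inner_def]
    have e1 : ∫ a, inner ℂ ((emb (Polynomial.X ^ 3 - 2 * Polynomial.X) : HH) a) ((emb p : HH) a) ∂rho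
        = ∫ x : ℝ, (((x ^ 3 - 2 * x : ℝ)) : ℂ) * p.eval (x : ℂ) ∂rho := by
      apply integral_congr_ae
      have a1 := (memLp_cont (g := fun x : ℝ => (Polynomial.X ^ 3 - 2 * Polynomial.X : Polynomial ℂ).eval (x : ℂ)) (by fun_prop)).coeFn_toLp
      have a2 := (memLp_cont (g := fun x : ℝ => p.eval (x : ℂ)) (by fun_prop)).coeFn_toLp
      filter_upwards [a1, a2] with x b1 b2
      have b1' : (emb (Polynomial.X ^ 3 - 2 * Polynomial.X) : HH) x = (Polynomial.X ^ 3 - 2 * Polynomial.X : Polynomial ℂ).eval (x : ℂ) := b1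
      have b2' : (emb p : HH) x = p.eval (x : ℂ) := b2
      rw [b1', b2', RCLike.inner_apply]
      have h22 : (starRingEnd ℂ) 2 = 2 := map_ofNat (starRingEnd ℂ) 2
      simp [h22]
      ring
    have e2 : ∫ a, inner ℂ (((memLp_cont2 (g := fun _ => (1 : ℂ)) continuous_const).toLp _ : KK) a) ((dq p : KK) a) ∂(rho.prod rho)
        = ∫ z, dqFun p z ∂(rho.prod rho) := by
      apply integral_congr_ae
      have a1 := (memLp_cont2 (g := fun _ => (1 : ℂ)) continuous_const).coeFn_toLp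
      have a2 := (memLp_cont2 (dqFun_cont p)).coeFn_toLp
      filter_upwards [a1, a2] with x b1 b2
      have b2' : (dq p : KK) x = dqFun p x := b2
      rw [b1, b2', RCLike.inner_apply]
      simp
    rw [e1, e2]
    exact conj_real hm p
  have hdom : dq Polynomial.X ∈ del.adjoint.domain :=
    LinearPMap.mem_adjoint_domain_of_exists _ ⟨_, key⟩
  exact ⟨h1, hdom, LinearPMap.adjoint_apply_eq hd _ key⟩

end Pool.Agent.Helper228.OP
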