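import Pool.Agent.Helper228.OP.Defs

open MeasureTheory Filter Topology

namespace Pool.Agent.Helper228.OP
open Pool.Agent.Helper228.MM


theorem heat_deriv_cont {r : ℝ} (hr : 0 < r) : Continuous (heatFun r) := by
  rw [continuous_iff_continuousAt]
  intro t
  rcases lt_trichotomy t 0 with h | h | h
  · have h1 : heatFun r =ᶠ[𝓝 t] fun _ => 0 := by
      filter_upwards [Iio_mem_nhds h] with x hx
      unfold heatFun
      rw [if_neg (not_lt.2 (le_of_lt hx))]
    exact continuousAt_const.congr h1.symm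
  · subst h
    have h0 : heatFun r 0 = 0 := by simp [heatFun]
    rw [ContinuousAt, h0]
    have hb : ∀ x, ‖heatFun r x‖ ≤ (Real.exp r / r) * |x| := by
      intro x
      rw [Real.norm_eq_abs]
      unfold heatFun
      split_ifs with hx
      · rw [abs_of_pos (Real.exp_pos _), abs_of_pos hx]
        have h1 : -r * (1 / x - 1) = r - r / x := by field_simp; ring
        rw [h1, Real.exp_sub]
        have h2 : r / x ≤ Real.exp (r / x) := by linarith [Real.add_one_le_exp (r / x)]
        calc Real.exp r / Real.exp (r / x) ≤ Real.exp r / (r / x) :=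
              div_le_div_of_nonneg_left (Real.exp_pos _).le (by positivity) h2
          _ = _ := by field_simp
      · rw [abs_zero]; positivity
    apply squeeze_zero_norm hb
    have : Tendsto (fun x : ℝ => Real.exp r / r * |x|) (𝓝 0) (𝓝 (Real.exp r / r * |0|)) := by
      have hc : Continuous (fun x : ℝ => Real.exp r / r * |x|) := by fun_prop
      exact hc.tendsto 0
    simpa using this
  · have h1 : heatFun r =ᶠ[𝓝 t] fun t => Real.exp (-r * (1 / t - 1)) := by
      filter_upwards [Ioi_mem_nhds h] with x hx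
      unfold heatFun
      rw [if_pos (show (0:ℝ) < x from hx)]
    refine ContinuousAt.congr ?_ h1.symm
    have ht : t ≠ 0 := h.ne'
    have h2 : ContinuousAt (fun t : ℝ => 1 / t) t := continuousAt_const.div continuousAt_id ht
    exact Real.continuous_exp.continuousAt.comp ((h2.sub continuousAt_const).const_mul _)

theorem heat_deriv_exp (y : ℝ) : |Real.exp y - 1 - y| ≤ y ^ 2 * Real.exp |y| := by
  have h1 : 0 ≤ Real.exp y - 1 - y := by linarith [Real.add_one_le_exp y]
  rw [abs_of_nonneg h1]
  -- `1 - e^{-y} ≤ y`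
  have h2 : Real.exp y - 1 ≤ y * Real.exp y := by
    have h3 := Real.add_one_le_exp (-y)
    have h4 : Real.exp (-y) * Real.exp y = 1 := by rw [← Real.exp_add]; simp
    have h5 := mul_le_mul_of_nonneg_right h3 (Real.exp_pos y).le
    nlinarith
  rcases le_total 0 y with hy | hy
  · rw [abs_of_nonneg hy]
    have h6 : y * (Real.exp y - 1) ≤ y * (y * Real.exp y) := mul_le_mul_of_nonneg_left h2 hy
    nlinarith
  · rw [abs_of_nonpos hy]
    have h7 : 1 - Real.exp y ≤ -y := by linarith [Real.add_one_le_exp y]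
    have h8 : (-y) * (1 - Real.exp y) ≤ (-y) * (-y) :=
      mul_le_mul_of_nonneg_left h7 (by linarith)
    have h9 : 1 ≤ Real.exp (-y) := Real.one_le_exp (by linarith)
    have h10 : y ^ 2 * 1 ≤ y ^ 2 * Real.exp (-y) := mul_le_mul_of_nonneg_left h9 (sq_nonneg y)
    nlinarith

theorem heat_deriv_bd (s r t : ℝ) (hs : 0 < s) (hr : |r - s| ≤ s / 2) (ht0 : 0 ≤ t)
    (ht1 : t ≤ 1) :
    |(heatFun r t - heatFun s t) * t + (r - s) * (heatFun s t * (1 - t))| ≤
      (2 / s) * (r - s) ^ 2 := by
  rcases ht0.eq_or_lt with h | h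
  · rw [← h]
    have : heatFun s 0 = 0 := by simp [heatFun]
    rw [this]
    simp
    positivity
  · unfold heatFun
    rw [if_pos h, if_pos h]
    set l := 1 / t - 1 with hl
    have hl0 : 0 ≤ l := by
      rw [hl, sub_nonneg, le_div_iff₀ h]; linarith
    have htl : t * l = 1 - t := by
      rw [hl]; field_simp
    set y := -((r - s) * l) with hy
    have e1 : Real.exp (-r * l) = Real.exp (-s * l) * Real.exp y := by
      rw [← Real.exp_add]; congr 1; rw [hy]; ring
    have e2 : (Real.exp (-r * l) - Real.exp (-s * l)) * t +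
        (r - s) * (Real.exp (-s * l) * (1 - t)) =
        t * Real.exp (-s * l) * (Real.exp y - 1 - y) := by
      rw [e1, ← htl, hy]; ring
    rw [e2, abs_mul, abs_of_nonneg (by positivity : 0 ≤ t * Real.exp (-s * l))]
    have h1 := heat_deriv_exp y
    have h2 : |y| ≤ s / 2 * l := by
      rw [hy, abs_neg, abs_mul, abs_of_nonneg hl0]
      exact mul_le_mul_of_nonneg_right hr hl0
    have h3 : Real.exp (-s * l) * Real.exp |y| ≤ Real.exp (-(s / 2 * l)) := by
      rw [← Real.exp_add]
      apply Real.exp_le_exp.2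
      linarith
    have h4 : s / 2 * l ≤ Real.exp (s / 2 * l) := by linarith [Real.add_one_le_exp (s / 2 * l)]
    have h5 : l * Real.exp (-(s / 2 * l)) ≤ 2 / s := by
      rw [Real.exp_neg, ← div_eq_mul_inv, div_le_div_iff₀ (Real.exp_pos _) hs]
      nlinarith
    calc t * Real.exp (-s * l) * |Real.exp y - 1 - y|
        ≤ t * Real.exp (-s * l) * (y ^ 2 * Real.exp |y|) :=
          mul_le_mul_of_nonneg_left h1 (by positivity)
      _ = t * y ^ 2 * (Real.exp (-s * l) * Real.exp |y|) := by ring
      _ ≤ t * y ^ 2 * Real.exp (-(s / 2 * l)) := mul_le_mul_of_nonneg_left h3 (by positivity)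
      _ = (r - s) ^ 2 * (t * l) * (l * Real.exp (-(s / 2 * l))) := by rw [hy]; ring
      _ ≤ (r - s) ^ 2 * 1 * (2 / s) := by
          apply mul_le_mul _ h5 (by positivity) (by positivity)
          apply mul_le_mul_of_nonneg_left _ (sq_nonneg _)
          rw [htl]; linarith
      _ = (2 / s) * (r - s) ^ 2 := by ring

theorem heat_deriv {E : Type*} [NormedAddCommGroup E] [InnerProductSpace ℂ E]
    [CompleteSpace E] (R : E →L[ℂ] E) (hR : R.IsPositive) (h1 : ‖R‖ ≤ 1) (s : ℝ) (hs : 0 < s)
    (v : E) : HasDerivAt (fun r : ℝ => heat R r (R v)) (-(heat R s (v - R v))) s := by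
  have hsa : IsSelfAdjoint R := hR.isSelfAdjoint
  have hnn : 0 ≤ R := (ContinuousLinearMap.nonneg_iff_isPositive R).2 hR
  have hspec0 : ∀ t ∈ spectrum ℝ R, 0 ≤ t := fun t ht => spectrum_nonneg_of_nonneg hnn ht
  have hspec1 : ∀ t ∈ spectrum ℝ R, t ≤ 1 := by
    intro t ht
    have h2 := spectrum.norm_le_norm_mul_of_mem ht
    have h3 : ‖(1 : E →L[ℂ] E)‖ ≤ 1 := ContinuousLinearMap.norm_id_le
    have h4 : ‖R‖ * ‖(1 : E →L[ℂ] E)‖ ≤ 1 := mul_le_one₀ h1 (norm_nonneg _) h3
    exact (le_abs_self t).trans (h2.trans h4)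
  have hop : ∀ r : ℝ, 0 < r →
      cfc (fun t => (heatFun r t - heatFun s t) * t + (r - s) * (heatFun s t * (1 - t))) R =
      (heat R r - heat R s) * R + (r - s) • (heat R s * (1 - R)) := by
    intro r hr
    have c1 := (heat_deriv_cont hr).continuousOn (s := spectrum ℝ R)
    have c2 := (heat_deriv_cont hs).continuousOn (s := spectrum ℝ R)
    have c3 : ContinuousOn (fun t : ℝ => t) (spectrum ℝ R) := continuousOn_id
    have c4 : ContinuousOn (fun t : ℝ => 1 - t) (spectrum ℝ R) := continuousOn_const.sub c3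
    rw [cfc_add R (fun t => (heatFun r t - heatFun s t) * t)
      (fun t => (r - s) * (heatFun s t * (1 - t))) ((c1.sub c2).mul c3)
      (continuousOn_const.mul (c2.mul c4)),
      cfc_mul (fun t => heatFun r t - heatFun s t) (fun t => t) R (c1.sub c2) c3,
      cfc_sub (heatFun r) (heatFun s) R c1 c2, cfc_id' ℝ R,
      cfc_const_mul (r - s) (fun t => heatFun s t * (1 - t)) R (c2.mul c4),
      cfc_mul (heatFun s) (fun t => 1 - t) R c2 c4,
      cfc_sub (fun _ => (1 : ℝ)) (fun t => t) R continuousOn_const c3, cfc_const_one ℝ R,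
      cfc_id' ℝ R]
    rfl
  have hbound : ∀ r : ℝ, |r - s| ≤ s / 2 →
      ‖heat R r (R v) - heat R s (R v) - (r - s) • (-(heat R s (v - R v)))‖ ≤
        (2 / s * ‖v‖) * ‖r - s‖ ^ 2 := by
    intro r hr
    have hr0 : 0 < r := by
      have := (abs_le.1 hr).1
      linarith
    have h5 : ‖cfc (fun t => (heatFun r t - heatFun s t) * t +
        (r - s) * (heatFun s t * (1 - t))) R‖ ≤ 2 / s * (r - s) ^ 2 := by
      apply norm_cfc_le (by positivity)
      intro t ht
      exact heat_deriv_bd s r t hs hr (hspec0 t ht) (hspec1 t ht)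
    rw [hop r hr0] at h5
    have h6 : heat R r (R v) - heat R s (R v) - (r - s) • (-(heat R s (v - R v))) =
        ((heat R r - heat R s) * R + (r - s) • (heat R s * (1 - R))) v := by
      simp only [ContinuousLinearMap.add_apply, ContinuousLinearMap.mul_apply,
        ContinuousLinearMap.sub_apply, ContinuousLinearMap.smul_apply, map_sub, smul_neg,
        sub_neg_eq_add, ContinuousLinearMap.one_apply]
    rw [h6]
    calc _ ≤ ‖(heat R r - heat R s) * R + (r - s) • (heat R s * (1 - R))‖ * ‖v‖ :=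
          ContinuousLinearMap.le_opNorm _ _
      _ ≤ (2 / s * (r - s) ^ 2) * ‖v‖ := mul_le_mul_of_nonneg_right h5 (norm_nonneg _)
      _ = _ := by rw [Real.norm_eq_abs, sq_abs]; ring
  rw [hasDerivAt_iff_isLittleO]
  have hO : (fun r : ℝ => heat R r (R v) - heat R s (R v) - (r - s) • (-(heat R s (v - R v))))
      =O[𝓝 s] (fun r : ℝ => ‖r - s‖ ^ 2) := by
    apply Asymptotics.IsBigO.of_bound (2 / s * ‖v‖)
    have hnear : ∀ᶠ r in 𝓝 s, |r - s| < s / 2 := by
      have : Metric.ball s (s / 2) ∈ 𝓝 s := Metric.ball_mem_nhds s (by linarith)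
      filter_upwards [this] with r hr
      rw [Metric.mem_ball, Real.dist_eq] at hr
      exact hr
    filter_upwards [hnear] with r hr
    have := hbound r hr.le
    rwa [Real.norm_of_nonneg (by positivity : 0 ≤ ‖r - s‖ ^ 2)]
  exact hO.trans_isLittleO (Asymptotics.isLittleO_pow_sub_sub s (by norm_num))

end Pool.Agent.Helper228.OP
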