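import Pool.Agent.Helper228.OP.Defs

open MeasureTheory Filter Topology

namespace Pool.Agent.Helper228.OP
open Pool.Agent.Helper228.MM

theorem hl_cont (s : ℝ) (hs : 0 < s) : Continuous (heatFun s) := by
  rw [continuous_iff_continuousAt]
  intro t
  rcases lt_trichotomy t 0 with h | h | h
  · have : heatFun s =ᶠ[𝓝 t] fun _ => 0 := by
      filter_upwards [isOpen_Iio.mem_nhds h] with x hx
      unfold heatFun
      rw [if_neg (not_lt.2 (le_of_lt hx))]
    exact continuousAt_const.congr this.symm
  · subst h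
    have h0 : heatFun s 0 = 0 := by unfold heatFun; simp
    unfold ContinuousAt
    rw [h0]
    have hb : ∀ x, |heatFun s x| ≤ Real.exp s / s * |x| := by
      intro x
      unfold heatFun
      split_ifs with hx
      · rw [abs_of_pos (Real.exp_pos _), abs_of_pos hx]
        have h1 : -s * (1 / x - 1) = s + -(s / x) := by field_simp; ring
        rw [h1, Real.exp_add, Real.exp_neg]
        have h2 : 0 < s / x := div_pos hs hx
        have h3 : s / x ≤ Real.exp (s / x) := by
          have := Real.add_one_le_exp (s / x)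
          linarith
        have h4 : (Real.exp (s / x))⁻¹ ≤ (s / x)⁻¹ := inv_anti₀ h2 h3
        calc Real.exp s * (Real.exp (s / x))⁻¹ ≤ Real.exp s * (s / x)⁻¹ :=
              mul_le_mul_of_nonneg_left h4 (Real.exp_pos s).le
          _ = Real.exp s / s * x := by rw [inv_div]; ring
      · rw [abs_zero]; positivity
    have hlim : Tendsto (fun x : ℝ => Real.exp s / s * |x|) (𝓝 0) (𝓝 0) := by
      have h1 : Continuous (fun x : ℝ => Real.exp s / s * |x|) := by fun_prop
      have h2 := h1.tendsto 0
      simpa using h2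
    exact squeeze_zero_norm hb hlim
  · have : heatFun s =ᶠ[𝓝 t] fun x => Real.exp (-s * (1 / x - 1)) := by
      filter_upwards [isOpen_Ioi.mem_nhds h] with x hx
      unfold heatFun
      exact if_pos hx
    have hc : ContinuousAt (fun x : ℝ => Real.exp (-s * (1 / x - 1))) t := by
      have : t ≠ 0 := h.ne'
      fun_prop (disch := assumption)
    exact hc.congr this.symm

theorem hl_ineq (s b t : ℝ) (hs : 0 < s) (hb : 0 < b) (ht : t ≤ 1) :
    Real.exp (-s * (1 / b - 1)) * (t - b) ≤ heatFun s t := by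
  have ha := Real.exp_pos (-s * (1 / b - 1))
  rcases le_or_gt t b with h | h
  · have h1 : Real.exp (-s * (1 / b - 1)) * (t - b) ≤ 0 :=
      mul_nonpos_of_nonneg_of_nonpos ha.le (by linarith)
    have h2 : 0 ≤ heatFun s t := by
      unfold heatFun
      split_ifs
      · exact (Real.exp_pos _).le
      · exact le_rfl
    linarith
  · have ht0 : 0 < t := hb.trans h
    have h1 : Real.exp (-s * (1 / b - 1)) * (t - b) ≤ Real.exp (-s * (1 / b - 1)) := by
      nlinarith
    refine h1.trans ?_
    unfold heatFun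
    rw [if_pos ht0, Real.exp_le_exp]
    have h2 : 1 / t ≤ 1 / b := one_div_le_one_div_of_le hb h.le
    nlinarith

theorem heat_lower {E : Type*} [NormedAddCommGroup E] [InnerProductSpace ℂ E]
    [CompleteSpace E] (R : E →L[ℂ] E) (hR : R.IsPositive) (h1 : ‖R‖ ≤ 1) (s b : ℝ) (hs : 0 < s)
    (hb : 0 < b) (v : E) :
    Real.exp (-s * (1 / b - 1)) * ((inner ℂ (R v) v).re - b * ‖v‖ ^ 2)
      ≤ (inner ℂ (heat R s v) v).re := by
  have hsa : IsSelfAdjoint R := hR.isSelfAdjoint
  have hspec : ∀ t ∈ spectrum ℝ R, t ≤ 1 := by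
    intro t ht
    have h2 := spectrum.norm_le_norm_mul_of_mem ht
    have h3 : ‖(1 : E →L[ℂ] E)‖ ≤ 1 := ContinuousLinearMap.norm_id_le
    have h4 : ‖R‖ * ‖(1 : E →L[ℂ] E)‖ ≤ 1 := by
      have := mul_le_mul h1 h3 (norm_nonneg _) zero_le_one
      linarith
    exact (le_abs_self t).trans (h2.trans h4)
  set a := Real.exp (-s * (1 / b - 1)) with ha
  have hmono : cfc (fun t : ℝ => a * (t - b)) R ≤ cfc (heatFun s) R := by
    apply cfc_mono (fun t ht => hl_ineq s b t hs hb (hspec t ht)) (by fun_prop)
      (hl_cont s hs).continuousOn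
  have hcfc : cfc (fun t : ℝ => a * (t - b)) R = a • (R - b • 1) := by
    rw [cfc_const_mul a (fun t : ℝ => t - b) R (by fun_prop), cfc_sub (fun t : ℝ => t) (fun _ => b) R
      (by fun_prop) (by fun_prop), cfc_id' ℝ R, cfc_const b R, Algebra.algebraMap_eq_smul_one]
  rw [hcfc, ContinuousLinearMap.le_def] at hmono
  have h5 := hmono.re_inner_nonneg_left v
  have h6 : (inner ℂ ((cfc (heatFun s) R - a • (R - b • (1 : E →L[ℂ] E))) v) v).re =
      (inner ℂ (heat R s v) v).re - a * ((inner ℂ (R v) v).re - b * ‖v‖ ^ 2) := by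
    have e : (cfc (heatFun s) R - a • (R - b • (1 : E →L[ℂ] E))) v =
        heat R s v - (a : ℂ) • (R v - (b : ℂ) • v) := rfl
    rw [e, inner_sub_left, inner_smul_left, inner_sub_left, inner_smul_left,
      inner_self_eq_norm_sq_to_K]
    simp
    left
    left
    norm_cast
  have h7 : 0 ≤ (inner ℂ ((cfc (heatFun s) R - a • (R - b • (1 : E →L[ℂ] E))) v) v).re := h5
  rw [h6] at h7
  linarith

end Pool.Agent.Helper228.OP
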