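import Pool.Agent.Helper228.OP.Defs

open MeasureTheory Filter Topology

namespace Pool.Agent.Helper228.OP
open Pool.Agent.Helper228.MM


theorem j22656_bound (s : ℝ) (hs : 0 < s) (t : ℝ) :
    |heatFun s t| ≤ Real.exp s / s * |t| := by
  unfold heatFun
  split_ifs with h
  · rw [abs_of_pos (Real.exp_pos _), abs_of_pos h]
    have h1 : -s * (1 / t - 1) = s - s / t := by ring
    rw [h1, Real.exp_sub]
    have h2 : s / t < Real.exp (s / t) := by
      have := Real.add_one_le_exp (s / t)
      linarith
    have h3 : 0 < s / t := div_pos hs h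
    rw [div_le_iff₀ (Real.exp_pos _)]
    have h4 : Real.exp s / s * t * (s / t) = Real.exp s := by
      field_simp
    have h5 : 0 < Real.exp s / s * t := by positivity
    calc Real.exp s = Real.exp s / s * t * (s / t) := h4.symm
      _ ≤ Real.exp s / s * t * Real.exp (s / t) := mul_le_mul_of_nonneg_left h2.le h5.le
  · rw [abs_zero]
    positivity

theorem j22656_cont (s : ℝ) (hs : 0 < s) : Continuous (heatFun s) := by
  rw [continuous_iff_continuousAt]
  intro x
  rcases lt_trichotomy x 0 with hx | hx | hx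
  · have h1 : heatFun s =ᶠ[𝓝 x] fun _ => 0 := by
      filter_upwards [Iio_mem_nhds hx] with y hy
      unfold heatFun
      rw [if_neg (not_lt.2 (le_of_lt hy))]
    exact (continuousAt_const).congr h1.symm
  · subst hx
    have h0 : heatFun s 0 = 0 := by
      unfold heatFun
      rw [if_neg (lt_irrefl _)]
    unfold ContinuousAt
    rw [h0]
    refine squeeze_zero_norm (a := fun t => Real.exp s / s * |t|) (fun t => ?_) ?_
    · rw [Real.norm_eq_abs]
      exact j22656_bound s hs t
    · have : Continuous fun t : ℝ => Real.exp s / s * |t| := by fun_prop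
      have h2 := this.tendsto 0
      simpa using h2
  · have h1 : heatFun s =ᶠ[𝓝 x] fun t => Real.exp (-s * (1 / t - 1)) := by
      filter_upwards [Ioi_mem_nhds hx] with y hy
      unfold heatFun
      rw [if_pos (show (0:ℝ) < y from hy)]
    refine ContinuousAt.congr ?_ h1.symm
    have hx' : x ≠ 0 := hx.ne'
    fun_prop (disch := assumption)

theorem heat_mul {E : Type*} [NormedAddCommGroup E] [InnerProductSpace ℂ E]
    [CompleteSpace E] (R : E →L[ℂ] E) (hR : R.IsPositive) (h1 : ‖R‖ ≤ 1) (s t : ℝ) (hs : 0 < s)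
    (ht : 0 < t) : heat R (s + t) = heat R s ∘L heat R t ∧ ‖heat R s‖ ≤ 1 ∧
      heat R s ∘L R = R ∘L heat R s := by
  have hsa : IsSelfAdjoint R := hR.isSelfAdjoint
  refine ⟨?_, ?_, ?_⟩
  · have h2 : heatFun (s + t) = fun x => heatFun s x * heatFun t x := by
      funext x
      unfold heatFun
      split_ifs with h
      · rw [← Real.exp_add]
        congr 1
        ring
      · simp
    unfold heat
    rw [h2, cfc_mul _ _ R (j22656_cont s hs).continuousOn (j22656_cont t ht).continuousOn]
    rfl
  · unfold heat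
    refine norm_cfc_le zero_le_one fun x hx => ?_
    have hx1 : ‖x‖ ≤ ‖R‖ * ‖(1 : E →L[ℂ] E)‖ := spectrum.norm_le_norm_mul_of_mem hx
    have hx2 : ‖(1 : E →L[ℂ] E)‖ ≤ 1 := ContinuousLinearMap.norm_id_le
    have hx3 : ‖x‖ ≤ 1 := by
      refine hx1.trans ?_
      calc ‖R‖ * ‖(1 : E →L[ℂ] E)‖ ≤ 1 * 1 :=
            mul_le_mul h1 hx2 (norm_nonneg _) zero_le_one
        _ = 1 := one_mul 1
    rw [Real.norm_eq_abs] at hx3 ⊢
    unfold heatFun
    split_ifs with h
    · rw [abs_of_pos (Real.exp_pos _), Real.exp_le_one_iff]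
      have h3 : 1 ≤ 1 / x := by
        rw [le_div_iff₀ h, one_mul]
        exact (le_abs_self x).trans hx3
      nlinarith
    · simp
  · have h2 := cfc_commute_cfc (heatFun s) id R
    rw [cfc_id ℝ R] at h2
    exact h2

end Pool.Agent.Helper228.OP
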