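import Pool.Agent.Helper228.OP.Defs

open MeasureTheory Filter Topology

namespace Pool.Agent.Helper228.OP
open Pool.Agent.Helper228.MM


theorem hz_cont (s : ℝ) (hs : 0 < s) : ContinuousOn (heatFun s) (Set.Ici 0) := by
  intro t ht
  rcases eq_or_lt_of_le (show (0:ℝ) ≤ t from ht) with h0 | h0
  · subst h0
    have e0 : heatFun s 0 = 0 := by simp [heatFun]
    unfold ContinuousWithinAt
    rw [e0]
    have h1 : Tendsto (fun t : ℝ => Real.exp s * t / s) (𝓝[Set.Ici 0] 0) (𝓝 0) := by
      have h2 : Continuous (fun t : ℝ => Real.exp s * t / s) := by fun_prop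
      have h3 := (h2.tendsto 0).mono_left (nhdsWithin_le_nhds (s := Set.Ici (0:ℝ)))
      simpa using h3
    refine tendsto_of_tendsto_of_tendsto_of_le_of_le' tendsto_const_nhds h1 ?_ ?_
    · filter_upwards with t
      unfold heatFun
      split_ifs
      · exact (Real.exp_pos _).le
      · exact le_rfl
    · filter_upwards [self_mem_nhdsWithin] with t ht
      unfold heatFun
      split_ifs with h
      · have h2 : -s * (1 / t - 1) = s - s / t := by
          field_simp
          ring
        rw [h2, Real.exp_sub, div_le_div_iff₀ (Real.exp_pos _) hs, mul_assoc]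
        refine mul_le_mul_of_nonneg_left ?_ (Real.exp_pos _).le
        have h3 := Real.add_one_le_exp (s / t)
        have h4 : t * (s / t) = s := by field_simp
        nlinarith
      · have : (0:ℝ) ≤ t := ht
        positivity
  · have h1 : ContinuousAt (fun t : ℝ => Real.exp (-s * (1 / t - 1))) t := by
      have h2 : ContinuousAt (fun t : ℝ => 1 / t) t := by
        simp only [one_div]
        exact continuousAt_inv₀ h0.ne'
      exact Real.continuous_exp.continuousAt.comp (continuousAt_const.mul (h2.sub continuousAt_const))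
    refine (h1.congr ?_).continuousWithinAt
    filter_upwards [lt_mem_nhds h0] with x hx
    simp [heatFun, hx]

theorem hz_bound (s : ℝ) (hs : 0 < s) (t : ℝ) (h0 : 0 ≤ t) (h1 : t ≤ 1) :
    ‖heatFun s t * t - t‖ ≤ s := by
  unfold heatFun
  split_ifs with h
  · have h2 : 0 ≤ 1 / t - 1 := by
      rw [sub_nonneg, le_div_iff₀ h]
      linarith
    have h3 : Real.exp (-s * (1 / t - 1)) ≤ 1 := by
      rw [Real.exp_le_one_iff]
      nlinarith
    have h4 := Real.add_one_le_exp (-s * (1 / t - 1))
    have h5 : t * (1 / t - 1) = 1 - t := by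
      field_simp
    rw [Real.norm_eq_abs, abs_le]
    constructor
    · nlinarith
    · nlinarith
  · have : t = 0 := le_antisymm (not_lt.1 h) h0
    rw [this]
    simp [hs.le]

theorem heat_zero {E : Type*} [NormedAddCommGroup E] [InnerProductSpace ℂ E]
    [CompleteSpace E] (R : E →L[ℂ] E) (hR : R.IsPositive) (h1 : ‖R‖ ≤ 1) (s : ℝ) (hs : 0 < s)
    (v : E) : ‖heat R s (R v) - R v‖ ≤ s * ‖v‖ := by
  have hsa : IsSelfAdjoint R := hR.isSelfAdjoint
  have hR0 : 0 ≤ R := (ContinuousLinearMap.nonneg_iff_isPositive R).2 hR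
  have hspec : ∀ t ∈ spectrum ℝ R, 0 ≤ t ∧ t ≤ 1 := by
    intro t ht
    refine ⟨spectrum_nonneg_of_nonneg hR0 ht, ?_⟩
    have h2 := spectrum.norm_le_norm_mul_of_mem ht
    have h3 : ‖(1 : E →L[ℂ] E)‖ ≤ 1 := ContinuousLinearMap.norm_id_le
    have h4 : ‖t‖ ≤ 1 := h2.trans (by
      calc ‖R‖ * ‖(1 : E →L[ℂ] E)‖ ≤ 1 * 1 := mul_le_mul h1 h3 (norm_nonneg _) zero_le_one
        _ = 1 := one_mul 1)
    exact (le_abs_self t).trans h4
  have hc : ContinuousOn (heatFun s) (spectrum ℝ R) :=
    (hz_cont s hs).mono fun t ht => (hspec t ht).1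
  have e1 : heat R s * R - R = cfc (fun t => heatFun s t * t - t) R := by
    rw [cfc_sub (fun t => heatFun s t * t) (fun t => t) R (hc.mul continuousOn_id) continuousOn_id,
      cfc_mul (heatFun s) (fun t => t) R hc continuousOn_id, cfc_id' ℝ R]
    rfl
  have e2 : ‖heat R s * R - R‖ ≤ s := by
    rw [e1]
    exact norm_cfc_le hs.le fun t ht => hz_bound s hs t (hspec t ht).1 (hspec t ht).2
  have e3 : heat R s (R v) - R v = (heat R s * R - R) v := rfl
  rw [e3]
  refine (ContinuousLinearMap.le_opNorm _ _).trans ?_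
  exact mul_le_mul_of_nonneg_right e2 (norm_nonneg _)

end Pool.Agent.Helper228.OP
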