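import Pool.Agent.Helper228.OP.Defs
import Pool.Agent.Helper228.OP.P_heat_mul
import Pool.Agent.Helper228.OP.P_heat_zero

open MeasureTheory Filter Topology

namespace Pool.Agent.Helper228.OP
open Pool.Agent.Helper228.MM


theorem heat_strong {E : Type*} [NormedAddCommGroup E] [InnerProductSpace ℂ E]
    [CompleteSpace E] (R : E →L[ℂ] E) (hR : R.IsPositive) (h1 : ‖R‖ ≤ 1) (hd : DenseRange R)
    (v : E) : Tendsto (fun s : ℝ => heat R s v) (𝓝[>] 0) (𝓝 v) := by
  rw [Metric.tendsto_nhds]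
  intro ε hε
  obtain ⟨w, hw⟩ := hd.exists_dist_lt v (show 0 < ε / 3 by positivity)
  rw [dist_eq_norm] at hw
  have hδ : 0 < ε / (3 * (‖w‖ + 1)) := by positivity
  filter_upwards [self_mem_nhdsWithin, mem_nhdsWithin_of_mem_nhds (Iio_mem_nhds hδ)] with s hs hs2
  have hs0 : 0 < s := hs
  have hs3 : s < ε / (3 * (‖w‖ + 1)) := hs2
  rw [dist_eq_norm]
  have h2 := (heat_mul R hR h1 s 1 hs0 one_pos).2.1
  have h3 := heat_zero R hR h1 s hs0 w
  have h4 : ‖heat R s (v - R w)‖ ≤ ‖v - R w‖ := by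
    refine ((heat R s).le_opNorm _).trans ?_
    calc ‖heat R s‖ * ‖v - R w‖ ≤ 1 * ‖v - R w‖ := by gcongr
      _ = _ := one_mul _
  have e : heat R s v - v = heat R s (v - R w) + (heat R s (R w) - R w) + (-(v - R w)) := by
    rw [map_sub]; abel
  rw [e]
  have h5 : s * ‖w‖ < ε / 3 := by
    rw [lt_div_iff₀ (by positivity)] at hs3
    nlinarith [norm_nonneg w]
  calc ‖heat R s (v - R w) + (heat R s (R w) - R w) + (-(v - R w))‖
      ≤ ‖heat R s (v - R w)‖ + ‖heat R s (R w) - R w‖ + ‖-(v - R w)‖ := norm_add₃_le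
    _ < ε := by rw [norm_neg]; linarith

end Pool.Agent.Helper228.OP
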