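import Pool.Agent.Helper228.OP.Defs
import Pool.Agent.Helper228.OP.P_dq_formula

open MeasureTheory Filter Topology

namespace Pool.Agent.Helper228.OP
open Pool.Agent.Helper228.MM


theorem leibniz (p q : Polynomial ℂ) (z : ℝ × ℝ) :
    dqFun (p * q) z = dqFun p z * q.eval (z.2 : ℂ) + p.eval (z.1 : ℂ) * dqFun q z := by
  obtain ⟨x, y⟩ := z
  have hf : Continuous (fun t : ℝ => dqFun (p * q) (x, t)) :=
    (dqFun_cont (p * q)).comp (by fun_prop)
  have hg : Continuous (fun t : ℝ => dqFun p (x, t) * q.eval (t : ℂ) +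
      p.eval (x : ℂ) * dqFun q (x, t)) := by
    have h1 : Continuous (fun t : ℝ => dqFun p (x, t)) := (dqFun_cont p).comp (by fun_prop)
    have h2 : Continuous (fun t : ℝ => dqFun q (x, t)) := (dqFun_cont q).comp (by fun_prop)
    have h3 : Continuous (fun t : ℝ => q.eval (t : ℂ)) := by fun_prop
    exact (h1.mul h3).add (continuous_const.mul h2)
  have hd : Dense ({x}ᶜ : Set ℝ) := dense_compl_singleton x
  have he : Set.EqOn (fun t : ℝ => dqFun (p * q) (x, t))
      (fun t : ℝ => dqFun p (x, t) * q.eval (t : ℂ) + p.eval (x : ℂ) * dqFun q (x, t))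
      ({x}ᶜ : Set ℝ) := by
    intro t ht
    have hne : ((x : ℂ) - (t : ℂ)) ≠ 0 := by
      intro h
      apply ht
      have : (x : ℂ) = (t : ℂ) := sub_eq_zero.1 h
      exact (Complex.ofReal_injective this).symm
    have e1 := dq_formula (p * q) (x, t)
    have e2 := dq_formula p (x, t)
    have e3 := dq_formula q (x, t)
    simp only [Polynomial.eval_mul] at e1 e2 e3
    apply mul_left_cancel₀ hne
    simp only
    linear_combination e1 - q.eval (t : ℂ) * e2 - p.eval (x : ℂ) * e3
  exact congrFun (Continuous.ext_on hd hf hg he) y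

end Pool.Agent.Helper228.OP
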