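import Pool.Agent.Helper228.OP.Defs

open MeasureTheory Filter Topology

namespace Pool.Agent.Helper228.OP
open Pool.Agent.Helper228.MM


theorem resolvent_range {E F : Type*} [NormedAddCommGroup E] [InnerProductSpace ℂ E]
    [CompleteSpace E] [NormedAddCommGroup F] [InnerProductSpace ℂ F] (T : E →ₗ.[ℂ] F)
    (R : E →L[ℂ] E) (h : IsResolvent T R) : DenseRange R := by
  have hinj : ∀ v, R v = 0 → v = 0 := by
    intro v hv
    obtain ⟨hu, hk, hw⟩ := h.right v
    have h0 : (⟨R v, hu⟩ : T.closure.domain) = 0 := Subtype.ext hv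
    have h1 : T.closure ⟨R v, hu⟩ = 0 := by rw [h0]; exact LinearPMap.map_zero _
    have h2 : (⟨T.closure ⟨R v, hu⟩, hk⟩ : T.adjoint.domain) = 0 := Subtype.ext h1
    rw [h2, hv, sub_zero] at hw
    rw [← hw]
    exact LinearPMap.map_zero _
  have hadj : ContinuousLinearMap.adjoint R = R := h.pos.isSelfAdjoint.adjoint_eq
  have hbot : (LinearMap.range (R : E →ₗ[ℂ] E))ᗮ = ⊥ := by
    rw [Submodule.eq_bot_iff]
    intro v hv
    apply hinj
    rw [Submodule.mem_orthogonal] at hv
    have h3 := hv (R (R v)) ⟨R v, rfl⟩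
    have h4 : inner ℂ (R (R v)) v = inner ℂ (R v) (R v) := by
      conv_lhs => rw [← hadj]
      rw [ContinuousLinearMap.adjoint_inner_left, hadj]
    rw [h4] at h3
    exact inner_self_eq_zero.1 h3
  have hd := Submodule.dense_iff_topologicalClosure_eq_top.2
    ((Submodule.topologicalClosure_eq_top_iff).2 hbot)
  exact hd

end Pool.Agent.Helper228.OP
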