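import Pool.Agent.Helper228.OP.P_abs_noncompact
import Pool.Agent.Helper228.OP.P_abs_resolvent
import Pool.Agent.Helper228.OP.P_bump
import Pool.Agent.Helper228.OP.P_bump_l2
import Pool.Agent.Helper228.OP.P_bump_one
import Pool.Agent.Helper228.OP.P_c1_approx
import Pool.Agent.Helper228.OP.P_c1_closure
import Pool.Agent.Helper228.OP.P_compact_orth
import Pool.Agent.Helper228.OP.P_conj_adjoint
import Pool.Agent.Helper228.OP.P_conj_real
import Pool.Agent.Helper228.OP.P_del_apply
import Pool.Agent.Helper228.OP.P_del_closable
import Pool.Agent.Helper228.OP.P_diag_null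
import Pool.Agent.Helper228.OP.P_dq_formula
import Pool.Agent.Helper228.OP.P_emb_dense
import Pool.Agent.Helper228.OP.P_energy_bound
import Pool.Agent.Helper228.OP.P_graph_char
import Pool.Agent.Helper228.OP.P_heat_deriv
import Pool.Agent.Helper228.OP.P_heat_lower
import Pool.Agent.Helper228.OP.P_heat_mul
import Pool.Agent.Helper228.OP.P_heat_strong
import Pool.Agent.Helper228.OP.P_heat_zero
import Pool.Agent.Helper228.OP.P_inv_sq
import Pool.Agent.Helper228.OP.P_leibniz
import Pool.Agent.Helper228.OP.P_resolvent_range
import Pool.Agent.Helper228.OP.P_resolvent_unique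
import Pool.Agent.Helper228.OP.P_rho_small
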