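import Pool.Agent.Helper228.OP.All

open MeasureTheory Filter Topology

namespace Pool.Agent.Helper228.OP

open Pool.Agent.Helper228.MM

theorem l2_norm_sq {α : Type*} [MeasurableSpace α] {μ : Measure α} (u : Lp ℂ 2 μ) (g : α → ℝ)
    (h : u =ᵐ[μ] fun x => ((g x : ℝ) : ℂ)) : ‖u‖ ^ 2 = ∫ x, g x ^ 2 ∂μ := by
  have h1 : ‖u‖ ^ 2 = (inner ℂ u u).re := by
    rw [inner_self_eq_norm_sq_to_K]; norm_cast
  rw [h1, L2.inner_def]
  have h2 : ∫ a, inner ℂ (u a) (u a) ∂μ = ∫ a, (((g a ^ 2 : ℝ)) : ℂ) ∂μ := by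
    refine integral_congr_ae ?_
    filter_upwards [h] with a ha
    rw [ha, RCLike.inner_apply, Complex.conj_ofReal]
    push_cast
    ring
  rw [h2, integral_complex_ofReal, Complex.ofReal_re]

theorem l2_inner_zero {α : Type*} [MeasurableSpace α] {μ : Measure α} (u v : Lp ℂ 2 μ)
    (f g : α → ℝ) (hu : u =ᵐ[μ] fun x => ((f x : ℝ) : ℂ)) (hv : v =ᵐ[μ] fun x => ((g x : ℝ) : ℂ))
    (h0 : ∀ x, f x * g x = 0) : inner ℂ u v = 0 := by
  rw [L2.inner_def]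
  have h2 : ∫ a, inner ℂ (u a) (v a) ∂μ = ∫ _a, (0 : ℂ) ∂μ := by
    refine integral_congr_ae ?_
    filter_upwards [hu, hv] with a ha hb
    rw [ha, hb]
    have h3 := h0 a
    rcases mul_eq_zero.1 h3 with h | h <;> simp [h]
  rw [h2, integral_zero]

theorem noncompact (R : HH →L[ℂ] HH) (hR : IsResolvent del R) (s : ℝ) (hs : 0 < s) :
    ¬ IsCompactOperator (heat R s) := by
  obtain ⟨f, hC1, hdisj, c, C, hc, hC, hbd⟩ := bump
  have hdom : Dense (del.domain : Set HH) := emb_dense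
  obtain ⟨R0, hR0, hnorm, hineq⟩ := abs_resolvent del hdom del_closable
  have hRR : R = R0 := resolvent_unique del R R0 hR hR0
  subst hRR
  choose u hu hue huk using fun n => c1_closure (f n) (hC1 n)
  have hn1 : ∀ n, ‖u n‖ ^ 2 = ∫ x, f n x ^ 2 ∂rho := fun n => l2_norm_sq (u n) (f n) (hue n)
  have hn2 : ∀ n, ‖del.closure ⟨u n, hu n⟩‖ ^ 2
      = ∫ z, ((f n z.1 - f n z.2) / (z.1 - z.2)) ^ 2 ∂(rho.prod rho) := fun n =>
    l2_norm_sq _ (fun z : ℝ × ℝ => (f n z.1 - f n z.2) / (z.1 - z.2)) (huk n)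
  refine abs_noncompact R hR.pos hnorm s hs u ?_ (c ^ 2 / (2 * C)) C (by positivity) ?_ ?_
  · intro m n hmn
    exact l2_inner_zero (u m) (u n) (f m) (f n) (hue m) (hue n) (fun x => hdisj m n x hmn)
  · intro n
    rw [hn1]; exact (hbd n).2.1
  · intro n
    have h1 := hineq (u n) (hu n)
    have h2 : c ≤ ‖u n‖ ^ 2 := by rw [hn1]; exact (hbd n).1
    have h3 : ‖u n‖ ^ 2 + ‖del.closure ⟨u n, hu n⟩‖ ^ 2 ≤ 2 * C := by
      rw [hn1, hn2]; linarith [(hbd n).2.1, (hbd n).2.2]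
    have h4 : c ^ 2 ≤ ‖u n‖ ^ 4 := by
      have : ‖u n‖ ^ 4 = (‖u n‖ ^ 2) ^ 2 := by ring
      rw [this]; gcongr
    have h5 : 0 ≤ (inner ℂ (R (u n)) (u n)).re := by
      have := hR.pos.inner_nonneg_left (u n)
      have h6 := (RCLike.nonneg_iff.1 this).1
      simpa using h6
    rw [div_le_iff₀ (by positivity)]
    calc c ^ 2 ≤ ‖u n‖ ^ 4 := h4
      _ ≤ _ := h1
      _ ≤ (2 * C) * (inner ℂ (R (u n)) (u n)).re := by gcongr
      _ = _ := by ring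

end Pool.Agent.Helper228.OP
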