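import Pool.Agent.Helper228.OP.Defs
import Pool.Agent.Helper228.OP.P_emb_dense

open MeasureTheory Filter Topology

namespace Pool.Agent.Helper228.OP
open Pool.Agent.Helper228.MM


/-- polynomial functions of two real variables -/
noncomputable def pf24085 (P : MvPolynomial (Fin 2) ℂ) (z : ℝ × ℝ) : ℂ :=
  MvPolynomial.eval ![(z.1 : ℂ), (z.2 : ℂ)] P

theorem pf24085_cont (P : MvPolynomial (Fin 2) ℂ) : Continuous (pf24085 P) := by
  unfold pf24085
  refine (MvPolynomial.continuous_eval P).comp ?_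
  apply continuous_pi
  intro i
  fin_cases i
  · exact Complex.continuous_ofReal.comp continuous_fst
  · exact Complex.continuous_ofReal.comp continuous_snd

theorem pf24085_add (P Q : MvPolynomial (Fin 2) ℂ) (z : ℝ × ℝ) :
    pf24085 (P + Q) z = pf24085 P z + pf24085 Q z := by
  simp [pf24085]

theorem pf24085_mul (P Q : MvPolynomial (Fin 2) ℂ) (z : ℝ × ℝ) :
    pf24085 (P * Q) z = pf24085 P z * pf24085 Q z := by
  simp [pf24085]

theorem pf24085_conj (P : MvPolynomial (Fin 2) ℂ) (z : ℝ × ℝ) :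
    pf24085 (MvPolynomial.map (starRingEnd ℂ) P) z = (starRingEnd ℂ) (pf24085 P z) := by
  induction P using MvPolynomial.induction_on with
  | C a => simp [pf24085]
  | add p q hp hq => rw [map_add, pf24085_add, pf24085_add, hp, hq, map_add]
  | mul_X p i hp =>
    rw [map_mul, pf24085_mul, pf24085_mul, hp, map_mul]
    congr 1
    fin_cases i <;> simp [pf24085]

theorem mem24085 (P : MvPolynomial (Fin 2) ℂ) : (memLp_cont2 (pf24085_cont P)).toLp _ ∈
    Submodule.span ℂ {k : KK | ∃ p q : Polynomial ℂ,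
    k = (memLp_cont2 (g := fun z : ℝ × ℝ => p.eval (z.1 : ℂ) * q.eval (z.2 : ℂ))
      (by fun_prop)).toLp _} := by
  induction P using MvPolynomial.induction_on' with
  | monomial u a =>
    apply Submodule.subset_span
    refine ⟨Polynomial.C a * Polynomial.X ^ (u 0), Polynomial.X ^ (u 1), ?_⟩
    apply MemLp.toLp_congr
    refine Eventually.of_forall fun z => ?_
    show pf24085 (MvPolynomial.monomial u a) z = _
    unfold pf24085
    rw [MvPolynomial.eval_monomial, Finsupp.prod_fintype _ _ (fun i => pow_zero _),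
      Fin.prod_univ_two]
    simp [mul_assoc]
  | add p q hp hq =>
    have h1 : (memLp_cont2 (pf24085_cont (p + q))).toLp _ =
        (memLp_cont2 (pf24085_cont p)).toLp _ + (memLp_cont2 (pf24085_cont q)).toLp _ := by
      rw [← MemLp.toLp_add]
      apply MemLp.toLp_congr
      exact Eventually.of_forall fun z => pf24085_add p q z
    rw [h1]
    exact Submodule.add_mem _ hp hq

/-- the square -/
def K24085 : Set (ℝ × ℝ) := Set.Icc (-2 : ℝ) 2 ×ˢ Set.Icc (-2 : ℝ) 2

instance inst24085 : CompactSpace K24085 :=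
  isCompact_iff_compactSpace.1 (isCompact_Icc.prod isCompact_Icc)

/-- the polynomial functions on the square -/
noncomputable def A24085 : StarSubalgebra ℂ C(K24085, ℂ) where
  carrier := {φ | ∃ P, ∀ z : K24085, φ z = pf24085 P z}
  mul_mem' := by
    rintro φ ψ ⟨P, hP⟩ ⟨Q, hQ⟩
    refine ⟨P * Q, fun z => ?_⟩
    rw [pf24085_mul, ← hP, ← hQ]
    rfl
  add_mem' := by
    rintro φ ψ ⟨P, hP⟩ ⟨Q, hQ⟩
    refine ⟨P + Q, fun z => ?_⟩
    rw [pf24085_add, ← hP, ← hQ]
    rfl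
  algebraMap_mem' := fun r => ⟨MvPolynomial.C r, fun z => by simp [pf24085]⟩
  star_mem' := by
    rintro φ ⟨P, hP⟩
    refine ⟨MvPolynomial.map (starRingEnd ℂ) P, fun z => ?_⟩
    rw [pf24085_conj, ← hP]
    rfl

theorem sep24085 : A24085.SeparatesPoints := by
  intro x y hxy
  have hne : x.1.1 ≠ y.1.1 ∨ x.1.2 ≠ y.1.2 := by
    by_contra h
    push Not at h
    exact hxy (Subtype.ext (Prod.ext h.1 h.2))
  rcases hne with h | h
  · refine ⟨_, ⟨⟨fun z : K24085 => pf24085 (MvPolynomial.X 0) z,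
      (pf24085_cont _).comp continuous_subtype_val⟩, ⟨_, fun z => rfl⟩, rfl⟩, ?_⟩
    show pf24085 (MvPolynomial.X 0) x ≠ pf24085 (MvPolynomial.X 0) y
    simpa [pf24085] using h
  · refine ⟨_, ⟨⟨fun z : K24085 => pf24085 (MvPolynomial.X 1) z,
      (pf24085_cont _).comp continuous_subtype_val⟩, ⟨_, fun z => rfl⟩, rfl⟩, ?_⟩
    show pf24085 (MvPolynomial.X 1) x ≠ pf24085 (MvPolynomial.X 1) y
    simpa [pf24085] using h

theorem approx24085 (g : ℝ × ℝ → ℂ) (hg : Continuous g) (ε : ℝ) (hε : 0 < ε) :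
    ∃ P : MvPolynomial (Fin 2) ℂ, ∀ z ∈ K24085, ‖g z - pf24085 P z‖ ≤ ε := by
  have h1 := ContinuousMap.starSubalgebra_topologicalClosure_eq_top_of_separatesPoints
    A24085 sep24085
  let φ : C(K24085, ℂ) := ⟨fun z => g z, hg.comp continuous_subtype_val⟩
  have h2 : φ ∈ A24085.topologicalClosure := by
    rw [h1]
    exact StarSubalgebra.mem_top
  have h3 : φ ∈ closure (A24085 : Set C(K24085, ℂ)) := h2
  obtain ⟨ψ, ⟨P, hP⟩, hψ⟩ := Metric.mem_closure_iff.1 h3 ε hε
  refine ⟨P, fun z hz => ?_⟩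
  have h4 := ContinuousMap.dist_apply_le_dist (f := φ) (g := ψ) (⟨z, hz⟩ : K24085)
  rw [dist_eq_norm, hP] at h4
  exact h4.trans hψ.le

theorem ten_dense : Dense ((Submodule.span ℂ {k : KK | ∃ p q : Polynomial ℂ,
    k = (memLp_cont2 (g := fun z : ℝ × ℝ => p.eval (z.1 : ℂ) * q.eval (z.2 : ℂ))
      (by fun_prop)).toLp _} : Submodule ℂ KK) : Set KK) := by
  have h1 : DenseRange (BoundedContinuousFunction.toLp 2 (rho.prod rho) ℂ :
      BoundedContinuousFunction (ℝ × ℝ) ℂ →L[ℂ] Lp ℂ 2 (rho.prod rho)) :=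
    BoundedContinuousFunction.toLp_denseRange ℂ (rho.prod rho) ℂ (by norm_num)
  apply Dense.of_closure
  refine Dense.mono ?_ h1
  rintro _ ⟨g, rfl⟩
  rw [Metric.mem_closure_iff]
  intro ε hε
  obtain ⟨C, hC⟩ : ∃ C : ℝ, C = (measureUnivNNReal (rho.prod rho) : ℝ) ^ (2 : ENNReal).toReal⁻¹ :=
    ⟨_, rfl⟩
  have hC0 : 0 ≤ C := by
    rw [hC]
    positivity
  obtain ⟨δ, hδ, hδ2⟩ : ∃ δ : ℝ, 0 < δ ∧ C * δ < ε := by
    refine ⟨ε / (C + 1), by positivity, ?_⟩
    rw [mul_div_assoc', div_lt_iff₀ (by positivity)]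
    nlinarith
  obtain ⟨P, hP⟩ := approx24085 g g.continuous δ hδ
  refine ⟨_, mem24085 P, ?_⟩
  rw [dist_eq_norm]
  refine lt_of_le_of_lt ?_ hδ2
  rw [hC]
  apply Lp.norm_le_of_ae_bound hδ.le
  have h2 := BoundedContinuousFunction.coeFn_toLp (p := 2) (𝕜 := ℂ) (μ := rho.prod rho) g
  have h3 := (memLp_cont2 (pf24085_cont P)).coeFn_toLp
  have h4 := Lp.coeFn_sub (BoundedContinuousFunction.toLp 2 (rho.prod rho) ℂ g)
    ((memLp_cont2 (pf24085_cont P)).toLp _)
  filter_upwards [h2, h3, h4, ae_prod_Icc] with z e2 e3 e4 hz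
  rw [e4, Pi.sub_apply, e2, e3]
  exact hP z (Set.mk_mem_prod hz.1 hz.2)

end Pool.Agent.Helper228.OP
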