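import Mathlib
import Pool.Agent.Helper228.OP.Abstract
import Pool.Agent.Helper228.OP.Noncompact
import Pool.Agent.Helper228.OP.P_ten_dense

/-! The concrete model `L²(ρ)`, `L²(ρ ⊗ ρ)` of the abstract setting. -/

open MeasureTheory Filter Topology

namespace Pool.Agent.Helper228.FH

open Pool.Agent.Helper228.MM Pool.Agent.Helper228.OP

theorem lap_iff {E F : Type} [NormedAddCommGroup E] [InnerProductSpace ℂ E] [CompleteSpace E]
    [NormedAddCommGroup F] [InnerProductSpace ℂ F] (T : E →ₗ.[ℂ] F) (u w : E) :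
    Lap T u w ↔ IsLap T u w := by
  unfold Lap IsLap
  constructor
  · rintro ⟨k, h1, h2⟩
    rw [LinearPMap.mem_graph_iff] at h1 h2
    obtain ⟨⟨y, hy⟩, h3, h4⟩ := h1
    obtain ⟨⟨y', hy'⟩, h5, h6⟩ := h2
    simp only at h3 h4 h5 h6
    subst h3
    subst h4
    subst h5
    exact ⟨hy, hy', h6⟩
  · rintro ⟨hu, hk, h⟩
    refine ⟨T.closure ⟨u, hu⟩, T.closure.mem_graph ⟨u, hu⟩, ?_⟩
    have := T.adjoint.mem_graph ⟨T.closure ⟨u, hu⟩, hk⟩
    rw [h] at this
    exact this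

theorem resolvent_iff {E F : Type} [NormedAddCommGroup E] [InnerProductSpace ℂ E]
    [CompleteSpace E] [NormedAddCommGroup F] [InnerProductSpace ℂ F] (T : E →ₗ.[ℂ] F)
    (R : E →L[ℂ] E) : Resolvent T R ↔ IsResolvent T R :=
  ⟨fun h => ⟨h.pos, fun v => (lap_iff T _ _).1 (h.right v),
      fun u w hu => h.left u w ((lap_iff T _ _).2 hu)⟩,
    fun h => ⟨h.pos, fun v => (lap_iff T _ _).2 (h.right v),
      fun u w hu => h.left u w ((lap_iff T _ _).1 hu)⟩⟩

theorem semigroup {E F : Type} [NormedAddCommGroup E] [InnerProductSpace ℂ E]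
    [CompleteSpace E] [NormedAddCommGroup F] [InnerProductSpace ℂ F] (T : E →ₗ.[ℂ] F)
    (R : E →L[ℂ] E) (hR : Resolvent T R) (hnorm : ‖R‖ ≤ 1) :
    HeatSemigroup T (FH.heat R) := by
  have hR' := (resolvent_iff T R).1 hR
  refine ⟨?_, ?_, ?_⟩
  · intro s t hs ht v
    have := (heat_mul R hR.pos hnorm s t hs ht).1
    exact congrArg (fun S : E →L[ℂ] E => S v) this
  · intro v
    exact heat_strong R hR.pos hnorm (resolvent_range T R hR') v
  · intro s hs u w h
    have h1 := hR.left u w h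
    have h2 := heat_deriv R hR.pos hnorm s hs (u + w)
    rw [h1, add_sub_cancel_left] at h2
    rw [hasDerivAt_iff_tendsto_slope] at h2
    refine h2.congr fun r => ?_
    rw [slope_def_module]
    have h3 : ((r : ℂ) - (s : ℂ))⁻¹ = (((r - s)⁻¹ : ℝ) : ℂ) := by push_cast; rfl
    rw [h3]
    exact (RCLike.real_smul_eq_coe_smul (K := ℂ) (r - s)⁻¹ _)

/-- `p ⊗ q` as an element of `L²(ρ ⊗ ρ)`. -/
noncomputable def tenC : Polynomial ℂ →ₗ[ℂ] Polynomial ℂ →ₗ[ℂ] KK :=
  LinearMap.mk₂ ℂ (fun p q => (memLp_cont2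
      (g := fun z : ℝ × ℝ => p.eval (z.1 : ℂ) * q.eval (z.2 : ℂ)) (by fun_prop)).toLp _)
    (fun p p' q => by
      rw [← MemLp.toLp_add]; congr 1; ext x; simp [add_mul])
    (fun c p q => by
      rw [← MemLp.toLp_const_smul]; congr 1; ext x; simp [mul_assoc])
    (fun p q q' => by
      rw [← MemLp.toLp_add]; congr 1; ext x; simp [mul_add])
    (fun c p q => by
      rw [← MemLp.toLp_const_smul]; congr 1; ext x; simp; ring)

theorem eval_pstar (p : Polynomial ℂ) (x : ℝ) :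
    (pstar p).eval (x : ℂ) = (starRingEnd ℂ) (p.eval (x : ℂ)) := by
  unfold pstar
  rw [Polynomial.eval_map, ← Polynomial.eval₂_hom]
  simp

theorem isL2 : IsL2 (fun p => ∫ y : ℝ, p.eval (y : ℂ) ∂rho) OP.emb := by
  refine ⟨fun p q => ?_, OP.emb_dense⟩
  rw [L2.inner_def]
  refine integral_congr_ae ?_
  have h1 : (OP.emb p : ℝ → ℂ) =ᵐ[rho] fun x : ℝ => p.eval (x : ℂ) :=
    MemLp.coeFn_toLp (memLp_cont (g := fun x : ℝ => p.eval (x : ℂ)) (by fun_prop))
  have h2 : (OP.emb q : ℝ → ℂ) =ᵐ[rho] fun x : ℝ => q.eval (x : ℂ) :=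
    MemLp.coeFn_toLp (memLp_cont (g := fun x : ℝ => q.eval (x : ℂ)) (by fun_prop))
  filter_upwards [h1, h2] with x a b
  rw [a, b, Polynomial.eval_mul, eval_pstar, RCLike.inner_apply]
  ring

theorem isL2Tensor : IsL2Tensor (fun p => ∫ y : ℝ, p.eval (y : ℂ) ∂rho) tenC := by
  refine ⟨fun p q p' q' => ?_, ?_⟩
  · rw [L2.inner_def]
    have h1 : (tenC p q : ℝ × ℝ → ℂ) =ᵐ[rho.prod rho]
        fun z : ℝ × ℝ => p.eval (z.1 : ℂ) * q.eval (z.2 : ℂ) :=
      MemLp.coeFn_toLp (memLp_cont2 (g := fun z : ℝ × ℝ => p.eval (z.1 : ℂ) * q.eval (z.2 : ℂ))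
        (by fun_prop))
    have h2 : (tenC p' q' : ℝ × ℝ → ℂ) =ᵐ[rho.prod rho]
        fun z : ℝ × ℝ => p'.eval (z.1 : ℂ) * q'.eval (z.2 : ℂ) :=
      MemLp.coeFn_toLp (memLp_cont2 (g := fun z : ℝ × ℝ => p'.eval (z.1 : ℂ) * q'.eval (z.2 : ℂ))
        (by fun_prop))
    rw [← integral_prod_mul]
    refine integral_congr_ae ?_
    filter_upwards [h1, h2] with z a b
    rw [a, b, Polynomial.eval_mul, Polynomial.eval_mul, eval_pstar, eval_pstar,
      RCLike.inner_apply, map_mul]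
    ring
  · have h := ten_dense
    have hs : {k : KK | ∃ p q, tenC p q = k} = {k : KK | ∃ p q : Polynomial ℂ,
        k = (memLp_cont2 (g := fun z : ℝ × ℝ => p.eval (z.1 : ℂ) * q.eval (z.2 : ℂ))
          (by fun_prop)).toLp _} := by
      ext k
      constructor
      · rintro ⟨p, q, h⟩; exact ⟨p, q, h.symm⟩
      · rintro ⟨p, q, h⟩; exact ⟨p, q, h.symm⟩
    rw [hs]
    exact h

theorem isDiffQuot : IsDiffQuot OP.emb tenC OP.del := by
  refine ⟨fun u => Iff.rfl, fun k => ?_⟩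
  obtain ⟨h, hp⟩ := del_apply (Polynomial.X ^ k)
  have h1 := OP.del.mem_graph ⟨_, h⟩
  rw [hp] at h1
  have h2 : dq (Polynomial.X ^ k)
      = ∑ l ∈ Finset.range k, tenC (Polynomial.X ^ l) (Polynomial.X ^ (k - 1 - l)) := by
    have h3 : ∀ s : Finset ℕ, ∑ l ∈ s, tenC (Polynomial.X ^ l) (Polynomial.X ^ (k - 1 - l))
        = (memLp_cont2 (g := fun z : ℝ × ℝ => ∑ l ∈ s, (z.1 : ℂ) ^ l * (z.2 : ℂ) ^ (k - 1 - l))
          (by fun_prop)).toLp _ := by
      intro s
      induction s using Finset.induction_on with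
      | empty => simp only [Finset.sum_empty]; exact (MemLp.toLp_zero _).symm
      | insert a s ha ih =>
        rw [Finset.sum_insert ha, ih]
        show (memLp_cont2 (g := fun z : ℝ × ℝ => (Polynomial.X ^ a : Polynomial ℂ).eval (z.1 : ℂ)
            * (Polynomial.X ^ (k - 1 - a) : Polynomial ℂ).eval (z.2 : ℂ)) (by fun_prop)).toLp _
          + (memLp_cont2 (g := fun z : ℝ × ℝ =>
            ∑ l ∈ s, (z.1 : ℂ) ^ l * (z.2 : ℂ) ^ (k - 1 - l)) (by fun_prop)).toLp _ = _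
        rw [← MemLp.toLp_add]
        congr 1
        ext z
        simp [Finset.sum_insert ha]
    rw [h3]
    show (memLp_cont2 (dqFun_cont _)).toLp _ = _
    congr 1
    ext z
    unfold dqFun
    rw [Polynomial.X_pow_eq_monomial, Polynomial.sum_monomial_index _ _ (by simp), one_mul]
  rw [← h2]
  exact h1

end Pool.Agent.Helper228.FH
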