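import Pool.Agent.Helper228.OP.Defs
import Pool.Agent.Helper228.OP.P_heat_lower
import Pool.Agent.Helper228.OP.P_compact_orth

open MeasureTheory Filter Topology

namespace Pool.Agent.Helper228.OP
open Pool.Agent.Helper228.MM


theorem abs_noncompact {E : Type*} [NormedAddCommGroup E] [InnerProductSpace ℂ E]
    [CompleteSpace E] (R : E →L[ℂ] E) (hR : R.IsPositive) (h1 : ‖R‖ ≤ 1) (s : ℝ) (hs : 0 < s)
    (f : ℕ → E) (ho : ∀ m n, m ≠ n → inner ℂ (f m) (f n) = 0) (c C : ℝ) (hc : 0 < c)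
    (hC : ∀ n, ‖f n‖ ^ 2 ≤ C) (hl : ∀ n, c ≤ (inner ℂ (R (f n)) (f n)).re) :
    ¬ IsCompactOperator (heat R s) := by
  intro hK
  have hC0 : 0 ≤ C := (sq_nonneg ‖f 0‖).trans (hC 0)
  have hCs : ∀ n, ‖f n‖ ≤ Real.sqrt C := fun n => Real.le_sqrt_of_sq_le (hC n)
  have ht := compact_orth (heat R s) hK f ho (Real.sqrt C) hCs
  have ht2 : Tendsto (fun n => ‖heat R s (f n)‖ * Real.sqrt C) atTop (𝓝 (0 * Real.sqrt C)) :=
    ht.mul_const _
  rw [zero_mul] at ht2
  set b := c / (2 * (C + 1)) with hb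
  have hb0 : 0 < b := by positivity
  have hbC : b * C ≤ c / 2 := by
    rw [hb, div_mul_eq_mul_div, div_le_div_iff₀ (by positivity) (by norm_num)]
    nlinarith
  have hα : 0 < Real.exp (-s * (1 / b - 1)) := Real.exp_pos _
  have hkey : ∀ n, Real.exp (-s * (1 / b - 1)) * (c / 2) ≤ ‖heat R s (f n)‖ * Real.sqrt C := by
    intro n
    have h2 := heat_lower R hR h1 s b hs hb0 (f n)
    have h3 : b * ‖f n‖ ^ 2 ≤ b * C := mul_le_mul_of_nonneg_left (hC n) hb0.le
    have h4 : c / 2 ≤ (inner ℂ (R (f n)) (f n)).re - b * ‖f n‖ ^ 2 := by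
      have := hl n
      linarith
    have h5 := mul_le_mul_of_nonneg_left h4 hα.le
    have h6 : (inner ℂ (heat R s (f n)) (f n)).re ≤ ‖heat R s (f n)‖ * ‖f n‖ :=
      (Complex.re_le_norm _).trans (norm_inner_le_norm _ _)
    have h7 : ‖heat R s (f n)‖ * ‖f n‖ ≤ ‖heat R s (f n)‖ * Real.sqrt C :=
      mul_le_mul_of_nonneg_left (hCs n) (norm_nonneg _)
    linarith
  have h8 := ge_of_tendsto' ht2 hkey
  have h9 : 0 < Real.exp (-s * (1 / b - 1)) * (c / 2) := by positivity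
  linarith

end Pool.Agent.Helper228.OP
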