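import Pool.Agent.Helper228.OP.Defs

open MeasureTheory Filter Topology

namespace Pool.Agent.Helper228.OP
open Pool.Agent.Helper228.MM


theorem resolvent_unique {E F : Type*} [NormedAddCommGroup E] [InnerProductSpace ℂ E]
    [CompleteSpace E] [NormedAddCommGroup F] [InnerProductSpace ℂ F]
    (T : E →ₗ.[ℂ] F) (R R' : E →L[ℂ] E) (h : IsResolvent T R) (h' : IsResolvent T R') :
    R = R' := by
  ext v
  have h1 := h'.left _ _ (h.right v)
  rw [add_sub_cancel] at h1
  exact h1.symm

end Pool.Agent.Helper228.OP
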